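import Pool.Agent.Lib.MP_8a3537_gt.K2.Base
import Pool.Agent.Lib.MP_8a3537_gt.GA.Xi
import Pool.Agent.Lib.MP_8a3537_gt.K2V.Pre

/-!
# The model over the group ring of a ring with involution (MP_8a3537_gt, folder K2V)
-/

namespace Pool.Agent.Lib.MP8a3537.K2V

open MonoidAlgebra

set_option linter.unusedSectionVars false

open K2 (SymC)

open K2.Base (W Wh)

namespace Base

/-! ### Bilinear extension -/

section bil

variable {S X V : Type*} [Ring S] [AddCommGroup V] [Module (ZMod 2) V]

/-- bilinear extension -/
noncomputable def bil (τ : S →+ V) (f : X → X → ZMod 2) (α β : MonoidAlgebra S X) : V :=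
  α.coeff.sum fun u a => β.coeff.sum fun v b => f u v • τ (a * b)

variable (τ : S →+ V) (f : X → X → ZMod 2)

theorem bil_add (α β γ : MonoidAlgebra S X) : bil τ f (α + β) γ = bil τ f α γ + bil τ f β γ := by
  classical
  unfold bil
  rw [coeff_add, Finsupp.sum_add_index']
  · intro u; simp [Finsupp.sum]
  · intro u a b
    rw [← Finsupp.sum_add]
    refine Finsupp.sum_congr fun v _ => ?_
    rw [add_mul, map_add, smul_add]

theorem add_bil (α β γ : MonoidAlgebra S X) : bil τ f γ (α + β) = bil τ f γ α + bil τ f γ β := by
  classical
  unfold bil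
  rw [← Finsupp.sum_add]
  refine Finsupp.sum_congr fun u _ => ?_
  rw [coeff_add, Finsupp.sum_add_index']
  · intro v; simp
  · intro v a b
    rw [mul_add, map_add, smul_add]

theorem bil_single (u v : X) (a b : S) : bil τ f (single u a) (single v b) = f u v • τ (a * b) := by
  unfold bil
  rw [coeff_single, Finsupp.sum_single_index, coeff_single, Finsupp.sum_single_index]
  · simp
  · simp

theorem bil_zero (β : MonoidAlgebra S X) : bil τ f 0 β = 0 := by
  have := bil_add τ f 0 0 β
  simpa using this

theorem zero_bil (β : MonoidAlgebra S X) : bil τ f β 0 = 0 := by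
  have := add_bil τ f 0 0 β
  simpa using this

/-- a relation between biadditive maps is checked on monomials -/
theorem bil_ext {F : MonoidAlgebra S X → MonoidAlgebra S X → V}
    (h1 : ∀ α β γ, F (α + β) γ = F α γ + F β γ) (h2 : ∀ α β γ, F γ (α + β) = F γ α + F γ β)
    (h3 : ∀ u v a b, F (single u a) (single v b) = 0) (α β : MonoidAlgebra S X) : F α β = 0 := by
  have z1 : ∀ β, F 0 β = 0 := fun β => by have := h1 0 0 β; simpa using this
  have z2 : ∀ β, F β 0 = 0 := fun β => by have := h2 0 0 β; simpa using this
  induction α using MonoidAlgebra.induction_linear with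
  | zero => exact z1 _
  | add x y hx hy => rw [h1, hx, hy, add_zero]
  | single u a =>
    induction β using MonoidAlgebra.induction_linear with
    | zero => exact z2 _
    | add x y hx hy => rw [h2, hx, hy, add_zero]
    | single v b => exact h3 u v a b

theorem two (x : V) : x + x = 0 := ZModModule.add_self x

end bil

theorem two2 (x : ZMod 2) : x + x = 0 := ZModModule.add_self x

/-! ### The maps -/

section maps

variable (S G : Type*) [Ring S] [StarRing S] [Group G]

/-- `g ↦ (g, 1)` -/
noncomputable def i1 : MonoidAlgebra S G →+* MonoidAlgebra S (G × G) := mapDomainRingHom S (MonoidHom.inl G G)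

/-- `g ↦ (1, g)` -/
noncomputable def i2 : MonoidAlgebra S G →+* MonoidAlgebra S (G × G) := mapDomainRingHom S (MonoidHom.inr G G)

/-- the product -/
noncomputable def m : MonoidAlgebra S (G × G) →+ MonoidAlgebra S G where
  toFun := mapDomain (fun p => p.1 * p.2)
  map_zero' := by simp
  map_add' := mapDomain_add _

/-- the involution of `S[G]` -/
noncomputable def t : MonoidAlgebra S G →+ MonoidAlgebra S G where
  toFun := GA.conj
  map_zero' := GA.conj_zero
  map_add' := GA.conj_add

/-- the involution of `S[G × G]` -/
noncomputable def s : MonoidAlgebra S (G × G) →+ MonoidAlgebra S (G × G) where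
  toFun x := x.coeff.sum fun p a => single (p.2⁻¹, p.1⁻¹) (star a)
  map_zero' := by simp
  map_add' x y := by
    rw [MonoidAlgebra.coeff_add, Finsupp.sum_add_index']
    · intro g; simp
    · intro g r s; simp

variable {S G}

@[simp] theorem i1_single (g : G) (a : S) : i1 S G (single g a) = single (g, 1) a := by
  simp [i1]

@[simp] theorem i2_single (g : G) (a : S) : i2 S G (single g a) = single (1, g) a := by
  simp [i2]

@[simp] theorem m_single (p : G × G) (a : S) : m S G (single p a) = single (p.1 * p.2) a :=
  mapDomain_single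

theorem t_apply (x : MonoidAlgebra S G) : t S G x = GA.conj x := rfl

@[simp] theorem t_single (g : G) (a : S) : t S G (single g a) = single g⁻¹ (star a) :=
  GA.conj_single g a

@[simp] theorem s_single (p : G × G) (a : S) : s S G (single p a) = single (p.2⁻¹, p.1⁻¹) (star a) := by
  change (single p a).coeff.sum (fun p a => single (p.2⁻¹, p.1⁻¹) (star a)) = _
  rw [MonoidAlgebra.coeff_single, Finsupp.sum_single_index]
  simp

/-- additive relations are checked on monomials -/
theorem lin_ext {X M : Type*} [AddCommMonoid M] {F F' : MonoidAlgebra S X → M} (h1 : ∀ α β, F (α + β) = F α + F β)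
    (h1' : ∀ α β, F' (α + β) = F' α + F' β) (h0 : F 0 = F' 0)
    (h2 : ∀ u a, F (single u a) = F' (single u a)) (α : MonoidAlgebra S X) : F α = F' α := by
  induction α using MonoidAlgebra.induction_linear with
  | zero => exact h0
  | add x y hx hy => rw [h1, h1', hx, hy]
  | single u a => exact h2 u a

theorem m_i1 (b : MonoidAlgebra S G) : m S G (i1 S G b) = b := by
  induction b using MonoidAlgebra.induction_linear with
  | zero => simp
  | add x y hx hy => rw [map_add, map_add, hx, hy]
  | single u a => simp

theorem m_i2 (b : MonoidAlgebra S G) : m S G (i2 S G b) = b := by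
  induction b using MonoidAlgebra.induction_linear with
  | zero => simp
  | add x y hx hy => rw [map_add, map_add, hx, hy]
  | single u a => simp

theorem m_l (b : MonoidAlgebra S G) (α : MonoidAlgebra S (G × G)) : m S G (i1 S G b * α) = b * m S G α := by
  induction b using MonoidAlgebra.induction_linear with
  | zero => simp
  | add x y hx hy => rw [map_add, add_mul, map_add, hx, hy, add_mul]
  | single g a =>
    induction α using MonoidAlgebra.induction_linear with
    | zero => simp
    | add x y hx hy => rw [mul_add, map_add, hx, hy, map_add, mul_add]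
    | single p b => simp [single_mul_single, mul_assoc]

theorem m_r (α : MonoidAlgebra S (G × G)) (b : MonoidAlgebra S G) : m S G (α * i2 S G b) = m S G α * b := by
  induction b using MonoidAlgebra.induction_linear with
  | zero => simp
  | add x y hx hy => rw [map_add, mul_add, map_add, hx, hy, mul_add]
  | single g a =>
    induction α using MonoidAlgebra.induction_linear with
    | zero => simp
    | add x y hx hy => rw [add_mul, map_add, hx, hy, map_add, add_mul]
    | single p b => simp [single_mul_single, mul_assoc]

theorem t_mul (x y : MonoidAlgebra S G) : t S G (x * y) = t S G y * t S G x := by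
  induction x using MonoidAlgebra.induction_linear with
  | zero => simp
  | add x y hx hy => rw [map_add, add_mul, map_add, hx, hy, mul_add]
  | single g a =>
    induction y using MonoidAlgebra.induction_linear with
    | zero => simp
    | add x y hx hy => rw [mul_add, map_add, hx, hy, map_add, add_mul]
    | single p b => simp [single_mul_single]

theorem t_t (x : MonoidAlgebra S G) : t S G (t S G x) = x := by
  induction x using MonoidAlgebra.induction_linear with
  | zero => simp
  | add x y hx hy => rw [map_add, map_add, hx, hy]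
  | single g a => simp

theorem s_s (x : MonoidAlgebra S (G × G)) : s S G (s S G x) = x := by
  induction x using MonoidAlgebra.induction_linear with
  | zero => simp
  | add x y hx hy => rw [map_add, map_add, hx, hy]
  | single g a => simp

theorem m_s (x : MonoidAlgebra S (G × G)) : m S G (s S G x) = t S G (m S G x) := by
  induction x using MonoidAlgebra.induction_linear with
  | zero => simp
  | add x y hx hy => simp only [map_add, hx, hy]
  | single g a => simp

theorem s_i1 (x : MonoidAlgebra S G) : s S G (i1 S G x) = i2 S G (t S G x) := by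
  induction x using MonoidAlgebra.induction_linear with
  | zero => simp
  | add x y hx hy => simp only [map_add, hx, hy]
  | single g a => simp

theorem s_i2 (x : MonoidAlgebra S G) : s S G (i2 S G x) = i1 S G (t S G x) := by
  induction x using MonoidAlgebra.induction_linear with
  | zero => simp
  | add x y hx hy => simp only [map_add, hx, hy]
  | single g a => simp

theorem s_mul (x y : MonoidAlgebra S (G × G)) : s S G (x * y) = s S G y * s S G x := by
  induction x using MonoidAlgebra.induction_linear with
  | zero => simp
  | add x y hx hy => rw [map_add, add_mul, map_add, hx, hy, mul_add]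
  | single g a =>
    induction y using MonoidAlgebra.induction_linear with
    | zero => simp
    | add x y hx hy => rw [mul_add, map_add, hx, hy, map_add, add_mul]
    | single p b => simp [single_mul_single]

end maps

/-! ### Reduction to generators of the bimodule -/

section ker

variable {S G : Type*} [Ring S] [StarRing S] [Group G]

theorem add_self_of {X : Type*} (hS : ∀ x : S, x + x = 0) (α : MonoidAlgebra S X) : α + α = 0 := by
  ext u
  simp [hS]

theorem ker_ind (hS : ∀ x : S, x + x = 0) {P : MonoidAlgebra S (G × G) → Prop} (zero : P 0)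
    (add : ∀ α β, m S G α = 0 → m S G β = 0 → P α → P β → P (α + β))
    (gen : ∀ g h a, P (single (g, h) a + single (g * h, 1) a)) (α : MonoidAlgebra S (G × G)) (hα : m S G α = 0) : P α := by
  have h1 : ∀ α : MonoidAlgebra S (G × G), m S G (α + i1 S G (m S G α)) = 0 := by
    intro α
    rw [map_add, m_i1, add_self_of hS]
  have h2 : ∀ α : MonoidAlgebra S (G × G), P (α + i1 S G (m S G α)) := by
    intro α
    induction α using MonoidAlgebra.induction_linear with
    | zero => simpa using zero
    | add x y hx hy =>
      have := add _ _ (h1 x) (h1 y) hx hy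
      have e : x + y + i1 S G (m S G (x + y)) = x + i1 S G (m S G x) + (y + i1 S G (m S G y)) := by
        rw [map_add, map_add]; abel
      rw [e]; exact this
    | single p a =>
      simpa using gen p.1 p.2 a
  have := h2 α
  rwa [hα, map_zero, add_zero] at this

end ker

section laws

variable {S G V : Type*} [Ring S] [StarRing S] [Group G] [AddCommGroup V] [Module (ZMod 2) V]
  (c : SymC (ZMod 2) G) (τ : S →+ V)

/-- the pairing -/
noncomputable def I (α β : MonoidAlgebra S (G × G)) : V := bil τ (W c) α β

/-- half of the pairing -/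
noncomputable def J (α β : MonoidAlgebra S (G × G)) : V := bil τ (Wh c) α β

variable {c τ} (hS : ∀ x : S, x + x = 0) (hG : ∀ g : G, g * g = 1 → g = 1)
  (τm : ∀ x y, τ (x * y) = τ (y * x)) (τs : ∀ x, τ (star x) = τ x) (τq : ∀ x, τ (x * x) = τ x)

theorem I_single (u v : G × G) (a b : S) : I c τ (single u a) (single v b) = W c u v • τ (a * b) :=
  bil_single _ _ _ _ _ _

theorem J_single (u v : G × G) (a b : S) : J c τ (single u a) (single v b) = Wh c u v • τ (a * b) :=
  bil_single _ _ _ _ _ _

theorem J_add (α β γ : MonoidAlgebra S (G × G)) : J c τ (α + β) γ = J c τ α γ + J c τ β γ := bil_add _ _ _ _ _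

theorem add_J (α β γ : MonoidAlgebra S (G × G)) : J c τ γ (α + β) = J c τ γ α + J c τ γ β := add_bil _ _ _ _ _

theorem I_add (α β γ : MonoidAlgebra S (G × G)) : I c τ (α + β) γ = I c τ α γ + I c τ β γ := bil_add _ _ _ _ _

theorem add_I (α β γ : MonoidAlgebra S (G × G)) : I c τ γ (α + β) = I c τ γ α + I c τ γ β := add_bil _ _ _ _ _

theorem I_zero (β : MonoidAlgebra S (G × G)) : I c τ 0 β = 0 := bil_zero _ _ _

theorem zero_I (β : MonoidAlgebra S (G × G)) : I c τ β 0 = 0 := zero_bil _ _ _

theorem J_zero (β : MonoidAlgebra S (G × G)) : J c τ 0 β = 0 := bil_zero _ _ _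

theorem zero_J (β : MonoidAlgebra S (G × G)) : J c τ β 0 = 0 := zero_bil _ _ _

include τm in
theorem I_comm (α β : MonoidAlgebra S (G × G)) : I c τ α β = I c τ β α := by
  have h : ∀ α β : MonoidAlgebra S (G × G), I c τ α β + I c τ β α = 0 := by
    refine bil_ext (F := fun α β => I c τ α β + I c τ β α) (fun α β γ => ?_) (fun α β γ => ?_) (fun u v a b => ?_)
    · simp only [I, bil_add, add_bil]; abel
    · simp only [I, bil_add, add_bil]; abel
    · simp only [I_single, K2.Base.W_comm two2 v u, τm b a]
      exact two _
  have h1 := h α β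
  have h2 := two (I c τ β α)
  linear_combination (norm := abel) h1 - h2

include hG τm in
theorem J_J (α β : MonoidAlgebra S (G × G)) : J c τ α β + J c τ β α = I c τ α β := by
  have h : ∀ α β : MonoidAlgebra S (G × G), J c τ α β + J c τ β α - I c τ α β = 0 := by
    refine bil_ext (F := fun α β => J c τ α β + J c τ β α - I c τ α β) (fun α β γ => ?_) (fun α β γ => ?_) (fun u v a b => ?_)
    · simp only [I, J, bil_add, add_bil]; abel
    · simp only [I, J, bil_add, add_bil]; abel
    · simp only [I_single, J_single, ← K2.Base.Wh_add two2 hG u v, add_smul, τm b a]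
      abel
  have := h α β
  linear_combination (norm := abel) this

theorem I_one (k : G) (a : S) (β : MonoidAlgebra S (G × G)) : I c τ (single (k, 1) a) β = 0 := by
  induction β using MonoidAlgebra.induction_linear with
  | zero => exact zero_bil _ _ _
  | add x y hx hy => rw [I, add_bil]; change I c τ _ _ + I c τ _ _ = 0; rw [hx, hy, add_zero]
  | single p b => rw [I_single, K2.Base.W_one_left two2, zero_smul]

theorem one_I (k : G) (a : S) (β : MonoidAlgebra S (G × G)) : I c τ β (single (k, 1) a) = 0 := by
  induction β using MonoidAlgebra.induction_linear with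
  | zero => exact bil_zero _ _ _
  | add x y hx hy => rw [I, bil_add]; change I c τ _ _ + I c τ _ _ = 0; rw [hx, hy, add_zero]
  | single p b => rw [I_single, K2.Base.W_one_right, zero_smul]

include hS in
theorem I_bal (α : MonoidAlgebra S (G × G)) (x : MonoidAlgebra S G) (β : MonoidAlgebra S (G × G)) (hα : m S G α = 0) :
    I c τ (α * i2 S G x) β = I c τ α (i1 S G x * β) := by
  refine ker_ind hS (P := fun α => I c τ (α * i2 S G x) β = I c τ α (i1 S G x * β)) ?_ ?_ ?_ α hα
  · rw [zero_mul, I_zero, I_zero]
  · intro α α' _ _ h1 h2
    rw [add_mul, I_add, I_add, h1, h2]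
  · intro g h a
    rw [I_add, I_one, add_zero]
    refine lin_ext (F := fun x => I c τ ((single (g, h) a + single (g * h, 1) a) * i2 S G x) β)
      (F' := fun x => I c τ (single (g, h) a) (i1 S G x * β)) ?_ ?_ ?_ ?_ x
    · intro x y; simp only [map_add, mul_add, I_add]
    · intro x y; simp only [map_add, add_mul, add_I]
    · simp only [map_zero, mul_zero, zero_mul, I_zero, zero_I]
    · intro k b
      refine lin_ext (F := fun β => I c τ ((single (g, h) a + single (g * h, 1) a) * i2 S G (single k b)) β)
        (F' := fun β => I c τ (single (g, h) a) (i1 S G (single k b) * β)) ?_ ?_ ?_ ?_ β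
      · intro x y; simp only [add_I]
      · intro x y; simp only [mul_add, add_I]
      · simp only [mul_zero, zero_I]
      · intro v e
        simp only [i2_single, i1_single, add_mul, single_mul_single, Prod.mk_mul_mk, mul_one, one_mul, I_add, I_single]
        have h4 : ((k, 1) : G × G) * v = (k * v.1, v.2) := by ext <;> simp
        rw [h4, ← add_smul, mul_assoc a b e]
        congr 1
        have h5 := K2.Base.W_bal (c := c) two2 g h k v
        have h6 := two2 (W c (g, h) (k * v.1, v.2))
        linear_combination h5 - h6

include hS τm τs in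
theorem I_s (α β : MonoidAlgebra S (G × G)) (hα : m S G α = 0) (hβ : m S G β = 0) :
    I c τ (s S G α) (s S G β) = I c τ α β := by
  refine ker_ind hS (P := fun α => I c τ (s S G α) (s S G β) = I c τ α β) ?_ ?_ ?_ α hα
  · rw [map_zero, I_zero, I_zero]
  · intro α α' _ _ h1 h2
    rw [map_add, I_add, I_add, h1, h2]
  · intro g h a
    refine ker_ind hS (P := fun β => I c τ (s S G (single (g, h) a + single (g * h, 1) a)) (s S G β) =
      I c τ (single (g, h) a + single (g * h, 1) a) β) ?_ ?_ ?_ β hβ
    · rw [map_zero, zero_I, zero_I]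
    · intro α α' _ _ h1 h2
      rw [(s S G).map_add α α', add_I, add_I, h1, h2]
    · intro g' h' b
      have e1 : I c τ (single (g, h) a + single (g * h, 1) a) (single (g', h') b + single (g' * h', 1) b) =
          W c (g, h) (g', h') • τ (a * b) := by
        rw [I_add, I_one, add_I, one_I, I_single, add_zero, add_zero]
      rw [e1]
      simp only [map_add, s_single, I_add, add_I, I_single, inv_one, mul_inv_rev]
      rw [← K2.Base.W_star two2 g h g' h']
      have e2 : τ (star a * star b) = τ (a * b) := by
        rw [← star_mul, τs, τm]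
      rw [e2]
      simp only [add_smul]

include τm in
theorem I_dd (x y : MonoidAlgebra S G) : I c τ (i2 S G x + i1 S G x) (i2 S G y + i1 S G y) = 0 := by
  refine lin_ext (F := fun x => I c τ (i2 S G x + i1 S G x) (i2 S G y + i1 S G y)) (F' := fun _ => 0) ?_ ?_ ?_ ?_ x
  · intro x y; simp only [map_add, I_add]; abel
  · intro x y; simp
  · simp [I_zero]
  · intro k a
    refine lin_ext (F := fun y => I c τ (i2 S G (single k a) + i1 S G (single k a)) (i2 S G y + i1 S G y)) (F' := fun _ => 0) ?_ ?_ ?_ ?_ y
    · intro x y; simp only [map_add, add_I]; abel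
    · intro x y; simp
    · simp [zero_I]
    · intro l b
      simp only [i2_single, i1_single, I_add, add_I, I_single, K2.Base.W_one_right, K2.Base.W_one_left two2]
      have : W c (1, k) (1, l) = 0 := by
        unfold W
        split_ifs <;> simp [c.one_w, c.w_one]
      rw [this]
      simp

include hG τm in
theorem q_add (α β : MonoidAlgebra S (G × G)) : J c τ (α + β) (α + β) = J c τ α α + J c τ β β + I c τ α β := by
  rw [J_add, add_J, add_J, ← J_J hG τm]; abel

theorem q_single (u : G × G) (a : S) : J c τ (single u a) (single u a) = 0 := by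
  rw [J_single, K2.Base.Wh_self, zero_smul]

include hG τm in
theorem q_gen (g h : G) (a : S) : J c τ (single (g, h) a + single (g * h, 1) a) (single (g, h) a + single (g * h, 1) a) = 0 := by
  rw [q_add hG τm, q_single, q_single, one_I]; simp

include hS hG τm τs in
theorem q_s (α : MonoidAlgebra S (G × G)) (hα : m S G α = 0) : J c τ (s S G α) (s S G α) = J c τ α α := by
  refine ker_ind hS (P := fun α => J c τ (s S G α) (s S G α) = J c τ α α) ?_ ?_ ?_ α hα
  · rw [map_zero]
  · intro α β hα hβ h1 h2
    rw [map_add, q_add hG τm, q_add hG τm, h1, h2, I_s hS τm τs α β hα hβ]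
  · intro g h a
    rw [q_gen hG τm, map_add, s_single, s_single, q_add hG τm, q_single, q_single, I_single]
    have : W c ((g, h).2⁻¹, (g, h).1⁻¹) ((g * h, (1 : G)).2⁻¹, (g * h, (1 : G)).1⁻¹) = 0 := by
      unfold W
      simp only [inv_one, mul_one, mul_inv_rev]
      split_ifs with h1
      · have h2 : h⁻¹ * g⁻¹ = 1 := by
          apply hG
          exact Eq.trans (by group) h1
        have h3 : g⁻¹ = h⁻¹⁻¹ := eq_inv_of_mul_eq_one_right h2
        rw [c.w_one, h3, c.w_inv, add_zero]
      · rfl
    rw [this, zero_smul]; simp

variable (c) in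
include hG in
theorem W_e3 (k g h : G) : W c (g, h * k) (g * h, k) = W c (1, k) (g, h) := by
  unfold W
  simp only [one_mul, c.one_w]
  by_cases h0 : 1 * k * g * h = 1
  · have h1 : k * g * h = 1 := Eq.trans (by group) h0
    have h2 : g * h = k⁻¹ := eq_inv_of_mul_eq_one_right (Eq.trans (by group) h1)
    have h3 : g * (h * k) * (g * h) * k = 1 := by
      rw [h2, ← mul_assoc, h2]; group
    have h4 : h * k * (g * h) = h := by rw [h2]; group
    have h5 : g * (h * k) = 1 := by rw [← mul_assoc, h2]; group
    rw [if_pos h0, if_pos h3, h4, h5, c.one_w]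
    have h6 : c.w g h = c.w k g := by
      rw [c.cyc k g]
      congr 1
      apply eq_inv_of_mul_eq_one_right
      exact h1
    rw [h6]; ring
  · have h3 : ¬ g * (h * k) * (g * h) * k = 1 := by
      intro h3
      apply h0
      have h4 : g * h * k = 1 := by
        apply hG
        exact Eq.trans (by group) h3
      have h5 : k = (g * h)⁻¹ := eq_inv_of_mul_eq_one_right h4
      rw [h5]; group
    rw [if_neg h0, if_neg h3]

include hG τm τq in
theorem q_cyc_gen (k g h : G) (a b : S) : J c τ (i1 S G (single k b) * (single (g, h) a + single (g * h, 1) a))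
      (i1 S G (single k b) * (single (g, h) a + single (g * h, 1) a)) +
    J c τ ((single (g, h) a + single (g * h, 1) a) * i2 S G (single k b)) ((single (g, h) a + single (g * h, 1) a) * i2 S G (single k b)) +
    I c τ (i2 S G (single k b) + i1 S G (single k b)) (single (g, h) a + single (g * h, 1) a) = 0 := by
  have e1 : i1 S G (single k b) * (single (g, h) a + single (g * h, 1) a) = single (k * g, h) (b * a) + single (k * g * h, 1) (b * a) := by
    rw [i1_single, mul_add, single_mul_single, single_mul_single]
    simp [mul_assoc]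
  have e2 : (single (g, h) a + single (g * h, 1) a) * i2 S G (single k b) = single (g, h * k) (a * b) + single (g * h, k) (a * b) := by
    rw [i2_single, add_mul, single_mul_single, single_mul_single]
    simp
  rw [e1, e2, q_gen hG τm, q_add hG τm, q_single, q_single, I_single, i2_single, i1_single, I_add, I_one, add_I,
    one_I, I_single, W_e3 c hG, τq, τm b a]
  simp only [zero_add, add_zero]
  exact two _

include hS τm in
theorem I_bal' (x : MonoidAlgebra S G) (α β : MonoidAlgebra S (G × G)) (hβ : m S G β = 0) :
    I c τ (i1 S G x * α) β = I c τ α (β * i2 S G x) := by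
  rw [I_comm τm, ← I_bal hS _ _ _ hβ, I_comm τm]

include hS hG τm in
theorem cyc_add (x : MonoidAlgebra S G) (α β : MonoidAlgebra S (G × G)) (hα : m S G α = 0) (hβ : m S G β = 0)
    (h1 : J c τ (i1 S G x * α) (i1 S G x * α) + J c τ (α * i2 S G x) (α * i2 S G x) + I c τ (i2 S G x + i1 S G x) α = 0)
    (h2 : J c τ (i1 S G x * β) (i1 S G x * β) + J c τ (β * i2 S G x) (β * i2 S G x) + I c τ (i2 S G x + i1 S G x) β = 0) :
    J c τ (i1 S G x * (α + β)) (i1 S G x * (α + β)) + J c τ ((α + β) * i2 S G x) ((α + β) * i2 S G x) +
      I c τ (i2 S G x + i1 S G x) (α + β) = 0 := by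
  have h : I c τ (i1 S G x * α) (i1 S G x * β) + I c τ (α * i2 S G x) (β * i2 S G x) = 0 := by
    have e1 : m S G (i1 S G x * β) = 0 := by rw [m_l, hβ, mul_zero]
    rw [I_bal' hS τm x α _ e1, I_bal hS α x _ hα, mul_assoc]
    exact two _
  rw [mul_add, add_mul, q_add hG τm, q_add hG τm, add_I]
  linear_combination (norm := abel) h + h1 + h2

include hS hG τm in
theorem add_cyc (x y : MonoidAlgebra S G) (α : MonoidAlgebra S (G × G)) (hα : m S G α = 0)
    (h1 : J c τ (i1 S G x * α) (i1 S G x * α) + J c τ (α * i2 S G x) (α * i2 S G x) + I c τ (i2 S G x + i1 S G x) α = 0)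
    (h2 : J c τ (i1 S G y * α) (i1 S G y * α) + J c τ (α * i2 S G y) (α * i2 S G y) + I c τ (i2 S G y + i1 S G y) α = 0) :
    J c τ (i1 S G (x + y) * α) (i1 S G (x + y) * α) + J c τ (α * i2 S G (x + y)) (α * i2 S G (x + y)) +
      I c τ (i2 S G (x + y) + i1 S G (x + y)) α = 0 := by
  have h : I c τ (i1 S G x * α) (i1 S G y * α) + I c τ (α * i2 S G x) (α * i2 S G y) = 0 := by
    have e1 : m S G (i1 S G y * α) = 0 := by rw [m_l, hα, mul_zero]
    rw [I_bal' hS τm x α _ e1, I_comm τm (α * i2 S G x), I_bal hS α y _ hα, mul_assoc]
    exact two _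
  have e : i2 S G (x + y) + i1 S G (x + y) = (i2 S G x + i1 S G x) + (i2 S G y + i1 S G y) := by
    rw [map_add, map_add]; abel
  rw [e, map_add, map_add, add_mul, mul_add, q_add hG τm, q_add hG τm, I_add]
  linear_combination (norm := abel) h + h1 + h2

include hS hG τm τq in
/-- (A6) -/
theorem cyc (x : MonoidAlgebra S G) (α : MonoidAlgebra S (G × G)) (hα : m S G α = 0) :
    J c τ (i1 S G x * α) (i1 S G x * α) + J c τ (α * i2 S G x) (α * i2 S G x) + I c τ (i2 S G x + i1 S G x) α = 0 := by
  induction x using MonoidAlgebra.induction_linear with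
  | zero => simp only [map_zero, zero_mul, mul_zero, J_zero, add_zero, I_zero]
  | add x y hx hy => exact add_cyc hS hG τm x y α hα hx hy
  | single k b =>
    refine ker_ind hS (P := fun α => J c τ (i1 S G (single k b) * α) (i1 S G (single k b) * α) +
      J c τ (α * i2 S G (single k b)) (α * i2 S G (single k b)) + I c τ (i2 S G (single k b) + i1 S G (single k b)) α = 0)
      ?_ ?_ ?_ α hα
    · simp only [zero_mul, mul_zero, J_zero, zero_I, add_zero]
    · intro α β hα hβ h1 h2
      exact cyc_add hS hG τm _ α β hα hβ h1 h2
    · intro g h a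
      exact q_cyc_gen hG τm τq k g h a b

variable (c τ)

/-- the model -/
noncomputable def base : Pre (MonoidAlgebra S G) (MonoidAlgebra S (G × G)) V where
  i1 := i1 S G
  i2 := i2 S G
  m := m S G
  t := t S G
  s := s S G
  I := I c τ
  J := J c τ
  b2 := add_self_of hS
  t2 := add_self_of hS
  v2 := two
  m_i1 := m_i1
  m_i2 := m_i2
  m_l := m_l
  m_r := m_r
  t_mul := t_mul
  t_t := t_t
  s_s := s_s
  m_s := m_s
  s_l b α := by rw [s_mul, s_i1]
  s_r α b := by rw [s_mul, s_i2]
  s_i1 := s_i1
  s_i2 := s_i2
  I_add := I_add
  I_comm := I_comm τm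
  I_bal := I_bal hS
  I_s := I_s hS τm τs
  I_dd := I_dd τm
  J_add := J_add
  add_J := add_J
  J_J := J_J hG τm
  q_s := q_s hS hG τm τs

theorem base_cyc (τq : ∀ x, τ (x * x) = τ x) : (base c τ hS hG τm τs).Cyc :=
  fun x α hα => cyc hS hG τm τq x α hα

@[simp] theorem base_i1 : (base c τ hS hG τm τs).i1 = i1 S G := rfl

@[simp] theorem base_i2 : (base c τ hS hG τm τs).i2 = i2 S G := rfl

theorem base_t (x : MonoidAlgebra S G) : (base c τ hS hG τm τs).t x = GA.conj x := rfl

theorem base_m : (base c τ hS hG τm τs).m = m S G := rfl

theorem base_s : (base c τ hS hG τm τs).s = s S G := rfl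

theorem base_I : (base c τ hS hG τm τs).I = I c τ := rfl

theorem base_J : (base c τ hS hG τm τs).J = J c τ := rfl

end laws

end Base

end Pool.Agent.Lib.MP8a3537.K2V
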