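import Pool.Agent.Lib.MP_8a3537_gt.K2V.Pre

/-!
# The invariant of quadratic forms (MP_8a3537_gt, folder K2V)
-/

namespace Pool.Agent.Lib.MP8a3537.K2V

namespace Pre

open Matrix

variable {B T V : Type*} [Ring B] [Ring T] [AddCommGroup V] (S : Pre B T V)

/-- the quadratic map -/
def q (α : T) : V := S.J α α

theorem q_zero : S.q 0 = 0 := S.J_zero 0

theorem q_add' (α β : T) : S.q (α + β) = S.q α + S.q β + S.I α β := S.q_add α β

/-- the invariant -/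
noncomputable def e (ψ : B) : V :=
  S.q (S.i1 (Ring.inverse (ψ + S.t ψ)) * S.d ψ)

/-- the invariant of units -/
noncomputable def h (u : Bˣ) : V :=
  S.q (S.d u.val * S.i2 u⁻¹.val)

variable {S}

theorem e_eq {ψ μ : B} (h1 : μ * (ψ + S.t ψ) = 1) (h2 : (ψ + S.t ψ) * μ = 1) :
    S.e ψ = S.q (S.i1 μ * S.d ψ) := by
  have h : Ring.inverse (ψ + S.t ψ) = μ := by
    let u : Bˣ := ⟨ψ + S.t ψ, μ, h2, h1⟩
    have : ψ + S.t ψ = u.val := rfl
    rw [this, Ring.inverse_unit]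
    rfl
  rw [e, h]

theorem e_even (hL : S.Cyc) {ψ : B} (hψ : IsUnit (ψ + S.t ψ)) (η : B) : S.e (ψ + η + S.t η) = S.e ψ := by
  obtain ⟨u, hu⟩ := hψ
  have h1 : u⁻¹.val * (ψ + S.t ψ) = 1 := by rw [← hu, Units.inv_mul]
  have h2 : (ψ + S.t ψ) * u⁻¹.val = 1 := by rw [← hu, Units.mul_inv]
  have h3 : ψ + η + S.t η + S.t (ψ + η + S.t η) = ψ + S.t ψ := by
    rw [map_add, map_add, S.t_t]
    have e1 : ψ + η + S.t η + (S.t ψ + S.t η + η) = ψ + S.t ψ + (η + η) + (S.t η + S.t η) := by abel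
    rw [e1, S.b2, S.b2, add_zero, add_zero]
  rw [e_eq h1 h2, e_eq (μ := u⁻¹.val) (by rw [h3]; exact h1) (by rw [h3]; exact h2)]
  have := (S.sys hL).e_even (ψ := ψ) (μ := u⁻¹.val) h1 h2 η
  rw [add_assoc]
  exact this

theorem e_congr (hL : S.Cyc) {ψ : B} (hψ : IsUnit (ψ + S.t ψ)) (P : Bˣ) :
    S.e (S.t P.val * ψ * P.val) = S.e ψ + S.h P := by
  obtain ⟨u, hu⟩ := hψ
  have h1 : u⁻¹.val * (ψ + S.t ψ) = 1 := by rw [← hu, Units.inv_mul]
  have h2 : (ψ + S.t ψ) * u⁻¹.val = 1 := by rw [← hu, Units.mul_inv]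
  have t1 : S.t 1 = 1 := (S.sys hL).t_one
  have hq : S.t P.val * S.t P⁻¹.val = 1 := by rw [← S.t_mul, Units.inv_mul, t1]
  have hq' : S.t P⁻¹.val * S.t P.val = 1 := by rw [← S.t_mul, Units.mul_inv, t1]
  have h3 : S.t P.val * ψ * P.val + S.t (S.t P.val * ψ * P.val) = S.t P.val * (ψ + S.t ψ) * P.val := by
    rw [S.t_mul, S.t_mul, S.t_t, mul_add, add_mul]
    congr 1
    rw [mul_assoc]
  rw [e_eq h1 h2, e_eq (μ := P⁻¹.val * u⁻¹.val * S.t P⁻¹.val) ?_ ?_]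
  · exact (S.sys hL).e_congr (ψ := ψ) (μ := u⁻¹.val) (P := P.val) (Q := P⁻¹.val) h1 h2 P.mul_inv P.inv_mul
  · rw [h3]
    calc P⁻¹.val * u⁻¹.val * S.t P⁻¹.val * (S.t P.val * (ψ + S.t ψ) * P.val)
        = P⁻¹.val * (u⁻¹.val * ((S.t P⁻¹.val * S.t P.val) * (ψ + S.t ψ))) * P.val := by
          simp only [mul_assoc]
      _ = 1 := by rw [hq', one_mul, h1, mul_one, Units.inv_mul]
  · rw [h3]
    calc S.t P.val * (ψ + S.t ψ) * P.val * (P⁻¹.val * u⁻¹.val * S.t P⁻¹.val)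
        = S.t P.val * ((ψ + S.t ψ) * ((P.val * P⁻¹.val) * u⁻¹.val)) * S.t P⁻¹.val := by
          simp only [mul_assoc]
      _ = 1 := by rw [Units.mul_inv, one_mul, h2, mul_one, hq]

theorem h_mul (hL : S.Cyc) (P R : Bˣ) : S.h (P * R) = S.h P + S.h R := by
  have := (S.sys hL).h_mul (P := P.val) (Q := P⁻¹.val) (R := R.val) (T := R⁻¹.val) P.inv_mul R.mul_inv
  unfold h
  rw [Units.val_mul, _root_.mul_inv_rev, Units.val_mul]
  exact this

theorem d_one' : S.d 1 = 0 := by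
  unfold d
  rw [map_one, map_one]; exact S.t2 1

theorem h_one : S.h 1 = 0 := by
  unfold h
  rw [Units.val_one, d_one', zero_mul, q_zero]

theorem h_inv (hL : S.Cyc) (P : Bˣ) : S.h P⁻¹ = S.h P := by
  have h1 := h_mul hL P P⁻¹
  rw [mul_inv_cancel, h_one] at h1
  have h2 : S.h P + S.h P = 0 := (S.sys hL).v2 _
  have h3 : S.h P + S.h P⁻¹ = S.h P + S.h P := h1.symm.trans h2.symm
  exact add_left_cancel h3

variable (S)

section blocks

variable (ι κ : Type*) [Fintype ι] [DecidableEq ι] [Fintype κ] [DecidableEq κ]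

theorem mat_i1_apply (x : Matrix ι ι B) (i j : ι) : (S.mat ι).i1 x i j = S.i1 (x i j) := rfl

theorem mat_i2_apply (x : Matrix ι ι B) (i j : ι) : (S.mat ι).i2 x i j = S.i2 (x i j) := rfl

theorem mat_t_apply (x : Matrix ι ι B) (i j : ι) : (S.mat ι).t x i j = S.t (x j i) := rfl

theorem mat_d_apply (x : Matrix ι ι B) (i j : ι) : (S.mat ι).d x i j = S.d (x i j) := rfl

theorem mat_q (α : Matrix ι ι T) : (S.mat ι).q α = ∑ i, ∑ j, S.J (α i j) (α j i) := rfl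

theorem mat_I (α β : Matrix ι ι T) : (S.mat ι).I α β = ∑ i, ∑ j, S.I (α i j) (β j i) := rfl

theorem i1_blocks (a : Matrix ι ι B) (b : Matrix ι ι B) (c : Matrix ι ι B) (d : Matrix ι ι B) :
    (S.mat (ι ⊕ ι)).i1 (fromBlocks a b c d) = fromBlocks ((S.mat ι).i1 a) ((S.mat ι).i1 b) ((S.mat ι).i1 c) ((S.mat ι).i1 d) :=
  fromBlocks_map _ _ _ _ _

theorem d_blocks (a : Matrix ι ι B) (b : Matrix ι ι B) (c : Matrix ι ι B) (d : Matrix ι ι B) :
    (S.mat (ι ⊕ ι)).d (fromBlocks a b c d) = fromBlocks ((S.mat ι).d a) ((S.mat ι).d b) ((S.mat ι).d c) ((S.mat ι).d d) := by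
  ext i j
  rcases i with i | i <;> rcases j with j | j <;> rfl

theorem t_blocks (a : Matrix ι ι B) (b : Matrix ι ι B) (c : Matrix ι ι B) (d : Matrix ι ι B) :
    (S.mat (ι ⊕ ι)).t (fromBlocks a b c d) = fromBlocks ((S.mat ι).t a) ((S.mat ι).t c) ((S.mat ι).t b) ((S.mat ι).t d) := by
  ext i j
  rcases i with i | i <;> rcases j with j | j <;> rfl

theorem q_blocks (a : Matrix ι ι T) (b : Matrix ι κ T) (c : Matrix κ ι T) (d : Matrix κ κ T) :
    (S.mat (ι ⊕ κ)).q (fromBlocks a b c d) = (S.mat ι).q a + (S.mat κ).q d + ∑ i, ∑ j, S.I (b i j) (c j i) := by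
  rw [mat_q, mat_q, mat_q]
  simp only [Fintype.sum_sum_type, fromBlocks_apply₁₁, fromBlocks_apply₁₂, fromBlocks_apply₂₁, fromBlocks_apply₂₂,
    Finset.sum_add_distrib, ← S.J_J]
  have : ∑ i, ∑ j, S.J (c i j) (b j i) = ∑ i, ∑ j, S.J (c j i) (b i j) := Finset.sum_comm
  rw [this]
  abel

end blocks

section form

variable {S}

theorem I_self (α : T) : S.I α α = 0 := by rw [← S.J_J, S.v2]

theorem d_inv {x y : B} (h1 : x * y = 1) (h2 : y * x = 1) : S.d y = S.i1 y * S.d x * S.i2 y := by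
  have h := S.d_mul x y
  rw [h1, d_one'] at h
  have h3 : S.i1 x * S.d y = S.d x * S.i2 y := by
    have h4 := S.t2 (S.d x * S.i2 y)
    have : S.i1 x * S.d y + S.d x * S.i2 y = S.d x * S.i2 y + S.d x * S.i2 y := by rw [← h, h4]
    exact add_right_cancel this
  calc S.d y = S.i1 (y * x) * S.d y := by rw [h2, map_one, one_mul]
    _ = S.i1 y * S.d x * S.i2 y := by rw [map_mul, mul_assoc, h3, mul_assoc]

/-- `<F, N F> = <F, dN>` for `F = Φ⁻¹ dΦ`, `Φ^* = Φ (1 + N)` -/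
theorem I_NF {Φ Ψ N : B} (h1 : Φ * Ψ = 1) (h2 : Ψ * Φ = 1) (hN : S.t Φ = Φ * (1 + N)) :
    S.I (S.i1 Ψ * S.d Φ) (S.i1 N * (S.i1 Ψ * S.d Φ)) = S.I (S.i1 Ψ * S.d Φ) (S.d N) := by
  set F := S.i1 Ψ * S.d Φ with hF
  have mF : S.m F = 0 := S.m_l' _ (S.m_d _)
  have e1 : S.i1 Ψ * S.d (S.t Φ) = S.d N + F * S.i2 (1 + N) := by
    rw [hN, S.d_mul, mul_add, ← mul_assoc, ← map_mul, h2, map_one, one_mul, S.d_add, d_one', zero_add, ← mul_assoc]
  have e2 : S.I (F * S.i2 Ψ) (S.d (S.t Φ)) = 0 := by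
    rw [hF, ← d_inv h1 h2]; exact S.I_dd _ _
  rw [S.I_bal F _ _ mF, e1, map_add, map_one, mul_add, mul_one, S.add_I, S.add_I, I_self, zero_add] at e2
  have e3 : S.I F (F * S.i2 N) = S.I F (S.i1 N * F) := by
    rw [S.I_comm, S.I_bal F N F mF]
  rw [e3] at e2
  have := S.v2 (S.I F (S.d N))
  linear_combination (norm := abel) e2 - this


end form

end Pre

end Pool.Agent.Lib.MP8a3537.K2V
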