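import Pool.Agent.Lib.MP_8a3537_gt.K2.Bd

/-!
# The forms `Φ_x ⊗ ψ` over `S[G]`, `S` any ring (MP_8a3537_gt, folder K2V)
-/

namespace Pool.Agent.Lib.MP8a3537.K2V

open Pool.Agent.Lib.MP8a3537.K2 (bd)

variable (S : Type) {G κ : Type} [Ring S] [Group G]

/-- The upper triangular matrix `Φ_x` over `S[G]` of a word `x_0, ..., x_(h-1)`: `x_i` on the diagonal and
`(1 + x_i⁻¹) B_i⁻¹ B_j (1 + x_j)` above it, with `B_i = x_0² ⋯ x_(i-1)²`. -/
noncomputable def Phi (x : ℕ → G) (h : ℕ) : Matrix (Fin h) (Fin h) (MonoidAlgebra S G) :=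
  Matrix.of fun i j =>
    if i = j then MonoidAlgebra.single (x i) 1
    else if i < j then
      (1 + MonoidAlgebra.single (x i)⁻¹ 1) * MonoidAlgebra.single ((bd x i)⁻¹ * bd x j) 1 *
        (1 + MonoidAlgebra.single (x j) 1)
    else 0

variable {S}

/-- The quadratic form `Φ_x ⊗ ψ`, for a matrix `ψ` over `S`. -/
noncomputable def PhiT (x : ℕ → G) (h : ℕ) (ψ : Matrix κ κ S) :
    Matrix (Fin h × κ) (Fin h × κ) (MonoidAlgebra S G) :=
  Matrix.of fun p q => Phi S x h p.1 q.1 * MonoidAlgebra.single 1 (ψ p.2 q.2)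

end Pool.Agent.Lib.MP8a3537.K2V
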