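import Pool.Agent.Lib.MP_8a3537_gt.K2V.LDefs
import Pool.Agent.Lib.MP_8a3537_gt.K2V.Phi

/-!
# Lifts of the forms `Φ_x ⊗ ψ0`
-/

namespace Pool.Agent.Lib.MP8a3537.K2V

/-- The image of `ψ` under the homomorphism `f : R → S` of the coefficients is the form
`Φ_x ⊗ ψ0`, up to the numbering of the base. -/
def IsLift {R S G : Type} [Ring R] [StarRing R] [Ring S] [Group G] (f : R →+* S) {ep : ℤ}
    (ψ : NForm R G ep) (x : ℕ → G) (h : ℕ) {k : Type} (ψ0 : Matrix k k S) : Prop :=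
  ∃ σ : ψ.κ ≃ Fin h × k,
    ψ.mat.map (MonoidAlgebra.mapRingHom G f) = (PhiT x h ψ0).submatrix σ σ

end Pool.Agent.Lib.MP8a3537.K2V
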