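import Pool.Agent.Lib.MP_8a3537_gt.GA.Defs

/-!
# The groups `L_n^s(R[G])`, `n` even, for a ring with involution `R`: definitions

`R` is a ring with involution, `G` a group, `A = R[G]` with the involution
`∑ r_g g ↦ ∑ r_g^* g⁻¹`, and `ep = ± 1`. `ep`-quadratic forms on `A^κ` are given by matrices `ψ`
modulo the matrices `η - ep η^*`; they are nonsingular if `ψ + ep ψ^*` is invertible.
-/

namespace Pool.Agent.Lib.MP8a3537.K2V

open Matrix MonoidAlgebra Pool.Agent.Lib.MP8a3537.GA

/-! ## The definition of `L_n^s(R[G])` -/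

section Forms

variable (R G : Type) [Ring R] [StarRing R] [Group G]

/-- The simple invertible matrices over `R[G]`: the group generated by the elementary matrices
`1 + a e_ij` (`i ≠ j`), the invertible matrices over `R` and the diagonal matrices with entries
in `G`. -/
noncomputable def Simple (κ : Type) [Fintype κ] [DecidableEq κ] :
    Subgroup (Matrix κ κ (MonoidAlgebra R G))ˣ :=
  Subgroup.closure {u | (∃ (i j : κ) (a : MonoidAlgebra R G), i ≠ j ∧
      u.val = 1 + Matrix.single i j a) ∨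
    (∃ c : (Matrix κ κ R)ˣ, u.val = c.val.map (MonoidAlgebra.single 1)) ∨
    (∃ g : κ → G, u.val = Matrix.diagonal (fun i => MonoidAlgebra.single (g i) 1))}

/-- The matrix `(0 1; 0 0)` of the hyperbolic `ep`-quadratic form. -/
noncomputable def hyp (κ : Type) [DecidableEq κ] : Matrix (κ ⊕ κ) (κ ⊕ κ) (MonoidAlgebra R G) :=
  Matrix.fromBlocks 0 1 0 0

/-- A nonsingular `ep`-quadratic form on the free based module `R[G]^κ`: the class of the matrix
`mat` modulo matrices `η - ep η^*`, with `mat + ep mat^*` invertible. -/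
structure NForm (ep : ℤ) where
  κ : Type
  [fin : Fintype κ]
  [dec : DecidableEq κ]
  mat : Matrix κ κ (MonoidAlgebra R G)
  nonsing : IsUnit (mat + ep • dual mat)

attribute [instance] NForm.fin NForm.dec

/-- The relations of `L_n^s(R[G])`. -/
inductive Rel (ep : ℤ) : FreeAbelianGroup (NForm R G ep) → Prop
  /-- orthogonal sums -/
  | sum (ψ φ θ : NForm R G ep) (σ : θ.κ ≃ ψ.κ ⊕ φ.κ)
      (h : θ.mat = (Matrix.fromBlocks ψ.mat 0 0 φ.mat).submatrix σ σ) :
      Rel ep (FreeAbelianGroup.of θ - FreeAbelianGroup.of ψ - FreeAbelianGroup.of φ)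
  /-- simple changes of the base, and addition of `η - ep η^*` -/
  | iso (ψ φ : NForm R G ep) (σ : φ.κ ≃ ψ.κ) (u : (Matrix ψ.κ ψ.κ (MonoidAlgebra R G))ˣ)
      (hu : u ∈ Simple R G ψ.κ) (η : Matrix ψ.κ ψ.κ (MonoidAlgebra R G))
      (h : φ.mat = (dual u.val * ψ.mat * u.val + η - ep • dual η).submatrix σ σ) :
      Rel ep (FreeAbelianGroup.of φ - FreeAbelianGroup.of ψ)
  /-- hyperbolic forms -/
  | hyp (ψ : NForm R G ep) (κ : Type) (σ : ψ.κ ≃ κ ⊕ κ) (_ : DecidableEq κ)
      (h : ψ.mat = (hyp R G κ).submatrix σ σ) : Rel ep (FreeAbelianGroup.of ψ)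

/-- `L_n^s(R[G])` for even `n`, `ep = (-1) ^ (n / 2)`: the Witt group of nonsingular
`ep`-quadratic forms on free based `R[G]`-modules, with simple changes of the base. -/
abbrev L0s (ep : ℤ) : Type 1 :=
  FreeAbelianGroup (NForm R G ep) ⧸ AddSubgroup.closure {x | Rel R G ep x}

variable {R G}

/-- The class of a nonsingular form in `L_n^s(R[G])`. -/
noncomputable def NForm.cls {ep : ℤ} (ψ : NForm R G ep) : L0s R G ep :=
  QuotientAddGroup.mk' _ (FreeAbelianGroup.of ψ)

/-- A form over `R`, as a form over `R[G]`. -/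
def IsConst {ep : ℤ} (c : NForm R G ep) : Prop :=
  ∃ c0 : Matrix c.κ c.κ R, c.mat = c0.map (MonoidAlgebra.single 1)

end Forms

end Pool.Agent.Lib.MP8a3537.K2V
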