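import Pool.Agent.Lib.MP_8a3537_gt.GA.Xi
import Pool.Agent.Lib.MP_8a3537_gt.K2V.LDefs

/-!
# The groups `L_n^s(R[G])`, `n` even, for a ring with involution `R`

`R` is a ring with involution, `G` a group, `A = R[G]` with the involution
`∑ r_g g ↦ ∑ r_g^* g⁻¹`, and `ep = ± 1`. `ep`-quadratic forms on `A^κ` are given by matrices `ψ`
modulo the matrices `η - ep η^*`; they are nonsingular if `ψ + ep ψ^*` is invertible.
-/

namespace Pool.Agent.Lib.MP8a3537.K2V

open Matrix MonoidAlgebra Pool.Agent.Lib.MP8a3537.GA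

set_option linter.unusedSectionVars false

/-! ## The involution -/

section Conj

variable {R G : Type*} [Ring R] [StarRing R] [Group G]

lemma conj_one : conj (1 : MonoidAlgebra R G) = 1 := by
  rw [MonoidAlgebra.one_def, conj_single, inv_one, star_one]

lemma conj_mul (x y : MonoidAlgebra R G) : conj (x * y) = conj y * conj x := by
  induction x using MonoidAlgebra.induction_linear with
  | zero => simp [conj_zero]
  | add x x' hx hx' => rw [add_mul, conj_add, conj_add, hx, hx', mul_add]
  | single g r =>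
    induction y using MonoidAlgebra.induction_linear with
    | zero => simp [conj_zero]
    | add y y' hy hy' => rw [mul_add, conj_add, conj_add, hy, hy', add_mul]
    | single h s =>
      rw [MonoidAlgebra.single_mul_single, conj_single, conj_single, conj_single,
        MonoidAlgebra.single_mul_single, _root_.mul_inv_rev, star_mul]

lemma conj_conj (x : MonoidAlgebra R G) : conj (conj x) = x := by
  induction x using MonoidAlgebra.induction_linear with
  | zero => simp [conj_zero]
  | add x x' hx hx' => rw [conj_add, conj_add, hx, hx']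
  | single g r => rw [conj_single, conj_single, inv_inv, star_star]

/-- the involution as an additive map -/
noncomputable def conjHom : MonoidAlgebra R G →+ MonoidAlgebra R G where
  toFun := conj
  map_zero' := conj_zero
  map_add' := conj_add

lemma conj_sum {ι : Type*} (s : Finset ι) (f : ι → MonoidAlgebra R G) :
    conj (∑ i ∈ s, f i) = ∑ i ∈ s, conj (f i) := map_sum (conjHom (R := R) (G := G)) f s

lemma conj_zsmul (n : ℤ) (x : MonoidAlgebra R G) : conj (n • x) = n • conj x :=
  map_zsmul (conjHom (R := R) (G := G)) n x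

variable {κ μ : Type*}

lemma dual_add' (x y : Matrix κ κ (MonoidAlgebra R G)) : dual (x + y) = dual x + dual y := by
  ext1 i j
  simp [dual, conj_add]

lemma dual_zero' : dual (0 : Matrix κ κ (MonoidAlgebra R G)) = 0 := by
  ext1 i j
  simp [dual, conj_zero]

lemma dual_zsmul (n : ℤ) (x : Matrix κ κ (MonoidAlgebra R G)) : dual (n • x) = n • dual x := by
  ext1 i j
  simp only [dual, Matrix.transpose_apply, Matrix.map_apply, Matrix.smul_apply, conj_zsmul]

lemma dual_dual (x : Matrix κ κ (MonoidAlgebra R G)) : dual (dual x) = x := by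
  ext1 i j
  simp [dual, conj_conj]

lemma dual_mul [Fintype κ] (x y : Matrix κ κ (MonoidAlgebra R G)) :
    dual (x * y) = dual y * dual x := by
  ext1 i j
  simp only [dual, Matrix.transpose_apply, Matrix.map_apply, Matrix.mul_apply, conj_sum, conj_mul]

lemma dual_one [DecidableEq κ] : dual (1 : Matrix κ κ (MonoidAlgebra R G)) = 1 := by
  ext1 i j
  simp only [dual, Matrix.transpose_apply, Matrix.map_apply]
  by_cases h : i = j
  · subst h; rw [Matrix.one_apply_eq, conj_one]
  · rw [Matrix.one_apply_ne h, Matrix.one_apply_ne (Ne.symm h), conj_zero]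

lemma dual_fromBlocks (a b c d : Matrix κ κ (MonoidAlgebra R G)) :
    dual (Matrix.fromBlocks a b c d) = Matrix.fromBlocks (dual a) (dual c) (dual b) (dual d) := by
  unfold dual
  rw [Matrix.fromBlocks_map, Matrix.fromBlocks_transpose]

lemma dual_diagBlocks (a : Matrix κ κ (MonoidAlgebra R G)) (d : Matrix μ μ (MonoidAlgebra R G)) :
    dual (Matrix.fromBlocks a 0 0 d) = Matrix.fromBlocks (dual a) 0 0 (dual d) := by
  unfold dual
  rw [Matrix.fromBlocks_map, Matrix.fromBlocks_transpose]
  have h1 : ((0 : Matrix κ μ (MonoidAlgebra R G)).map conj)ᵀ = 0 := by ext1 i j; simp [conj_zero]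
  have h2 : ((0 : Matrix μ κ (MonoidAlgebra R G)).map conj)ᵀ = 0 := by ext1 i j; simp [conj_zero]
  rw [h1, h2]

lemma dual_submatrix (x : Matrix μ μ (MonoidAlgebra R G)) (f : κ → μ) :
    dual (x.submatrix f f) = (dual x).submatrix f f := by
  ext1 i j
  simp [dual]

/-- the matrices over `R`, as matrices over `R[G]` -/
lemma dual_map_single (c : Matrix κ κ R) :
    dual (c.map (MonoidAlgebra.single (1 : G))) = (cᴴ).map (MonoidAlgebra.single (1 : G)) := by
  ext1 i j
  simp only [dual, Matrix.transpose_apply, Matrix.map_apply, Matrix.conjTranspose_apply,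
    conj_single, inv_one]

end Conj

/-! ## Invariants -/

section Forms

variable {R G : Type} [Ring R] [StarRing R] [Group G]

/-- An invariant of nonsingular `ep`-quadratic forms over `R[G]` which is additive, does not see
even changes and forms over `R`, and changes under a change `u` of the base by `h(u)`, where `h`
is a homomorphism which is zero on simple matrices. -/
structure Invariant (R G : Type) [Ring R] [StarRing R] [Group G] (ep : ℤ) (V : Type)
    [AddCommGroup V] where
  e : (κ : Type) → [Fintype κ] → [DecidableEq κ] → Matrix κ κ (MonoidAlgebra R G) → V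
  h : (κ : Type) → [Fintype κ] → [DecidableEq κ] → (Matrix κ κ (MonoidAlgebra R G))ˣ → V
  h_mul : ∀ (κ : Type) [Fintype κ] [DecidableEq κ] (u v : (Matrix κ κ (MonoidAlgebra R G))ˣ),
    h κ (u * v) = h κ u + h κ v
  h_simple : ∀ (κ : Type) [Fintype κ] [DecidableEq κ] (u : (Matrix κ κ (MonoidAlgebra R G))ˣ),
    u ∈ Simple R G κ → h κ u = 0
  reindex : ∀ (κ μ : Type) [Fintype κ] [DecidableEq κ] [Fintype μ] [DecidableEq μ]
    (σ : κ ≃ μ) (ψ : Matrix μ μ (MonoidAlgebra R G)), IsUnit (ψ + ep • dual ψ) →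
      e κ (ψ.submatrix σ σ) = e μ ψ
  sum : ∀ (κ μ : Type) [Fintype κ] [DecidableEq κ] [Fintype μ] [DecidableEq μ]
    (ψ : Matrix κ κ (MonoidAlgebra R G)) (φ : Matrix μ μ (MonoidAlgebra R G)),
      IsUnit (ψ + ep • dual ψ) → IsUnit (φ + ep • dual φ) →
        e (κ ⊕ μ) (Matrix.fromBlocks ψ 0 0 φ) = e κ ψ + e μ φ
  even : ∀ (κ : Type) [Fintype κ] [DecidableEq κ] (ψ η : Matrix κ κ (MonoidAlgebra R G)),
    IsUnit (ψ + ep • dual ψ) → e κ (ψ + η - ep • dual η) = e κ ψ
  base : ∀ (κ : Type) [Fintype κ] [DecidableEq κ] (ψ : Matrix κ κ (MonoidAlgebra R G))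
    (u : (Matrix κ κ (MonoidAlgebra R G))ˣ), IsUnit (ψ + ep • dual ψ) →
      e κ (dual u.val * ψ * u.val) = e κ ψ + h κ u
  const : ∀ (κ : Type) [Fintype κ] [DecidableEq κ] (c : Matrix κ κ R),
    e κ (c.map (MonoidAlgebra.single 1)) = 0

section

lemma sq_one_of {ep : ℤ} (hep : ep = 1 ∨ ep = -1) : ep * ep = 1 := by
  rcases hep with h | h <;> rw [h] <;> norm_num

lemma nonsing_even {κ : Type*} [Fintype κ] [DecidableEq κ] {ep : ℤ} (hep : ep * ep = 1)
    (ψ η : Matrix κ κ (MonoidAlgebra R G)) :
    (ψ + η - ep • dual η) + ep • dual (ψ + η - ep • dual η) = ψ + ep • dual ψ := by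
  have h1 : dual (ψ + η - ep • dual η) = dual ψ + dual η - ep • η := by
    have h2 : ψ + η - ep • dual η = ψ + η + (-ep) • dual η := by
      rw [neg_smul, sub_eq_add_neg]
    rw [h2, dual_add', dual_add', dual_zsmul, dual_dual, neg_smul, ← sub_eq_add_neg]
  rw [h1, smul_sub, smul_add, smul_smul, hep, one_smul]
  abel

lemma nonsing_base {κ : Type*} [Fintype κ] [DecidableEq κ] {ep : ℤ}
    (ψ : Matrix κ κ (MonoidAlgebra R G))
    (u : (Matrix κ κ (MonoidAlgebra R G))ˣ) (h : IsUnit (ψ + ep • dual ψ)) :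
    IsUnit (dual u.val * ψ * u.val + ep • dual (dual u.val * ψ * u.val)) := by
  have h1 : dual u.val * ψ * u.val + ep • dual (dual u.val * ψ * u.val)
      = dual u.val * (ψ + ep • dual ψ) * u.val := by
    rw [dual_mul, dual_mul, dual_dual, ← Matrix.mul_assoc, Matrix.mul_add, Matrix.add_mul,
      Matrix.mul_smul, Matrix.smul_mul]
  rw [h1]
  have h2 : IsUnit (dual u.val) := by
    refine ⟨⟨dual u.val, dual u⁻¹.val, ?_, ?_⟩, rfl⟩
    · rw [← dual_mul, Units.inv_mul, dual_one]
    · rw [← dual_mul, Units.mul_inv, dual_one]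
  exact (h2.mul h).mul u.isUnit

lemma hyp_unit {T : Type*} [Ring T] {κ : Type*} [Fintype κ] [DecidableEq κ] {ep : ℤ}
    (hep : ep * ep = 1) :
    IsUnit (Matrix.fromBlocks (0 : Matrix κ κ T) (1 : Matrix κ κ T) (ep • (1 : Matrix κ κ T))
      (0 : Matrix κ κ T)) := by
  have h1 : (ep • (1 : Matrix κ κ T)) * (1 : Matrix κ κ T) = ep • 1 := by rw [mul_one]
  have h3 : (ep • (1 : Matrix κ κ T)) * (ep • (1 : Matrix κ κ T)) = 1 := by
    rw [smul_mul_smul_comm, hep, one_smul, mul_one]
  refine ⟨⟨Matrix.fromBlocks (0 : Matrix κ κ T) (1 : Matrix κ κ T) (ep • (1 : Matrix κ κ T))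
    (0 : Matrix κ κ T), Matrix.fromBlocks (0 : Matrix κ κ T) (ep • (1 : Matrix κ κ T))
    (1 : Matrix κ κ T) (0 : Matrix κ κ T), ?_, ?_⟩, rfl⟩
  · rw [Matrix.fromBlocks_multiply, h3]
    simp only [Matrix.zero_mul, Matrix.mul_zero, Matrix.one_mul, zero_add, add_zero]
    exact Matrix.fromBlocks_one
  · rw [Matrix.fromBlocks_multiply, h3]
    simp only [Matrix.zero_mul, Matrix.mul_zero, Matrix.one_mul, zero_add, add_zero]
    exact Matrix.fromBlocks_one

/-- an invariant with values in a group `V` defines a homomorphism on `L_n^s(R[G])` -/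
theorem Invariant.lift {ep : ℤ} (hep : ep = 1 ∨ ep = -1) {V : Type} [AddCommGroup V]
    (E : Invariant R G ep V) :
    ∃ f : L0s R G ep →+ V, (∀ ψ : NForm R G ep, f ψ.cls = E.e ψ.κ ψ.mat) ∧
      ∀ (ψ φ : NForm R G ep) (σ : φ.κ ≃ ψ.κ) (u : (Matrix ψ.κ ψ.κ (MonoidAlgebra R G))ˣ)
        (η : Matrix ψ.κ ψ.κ (MonoidAlgebra R G)),
        φ.mat = (dual u.val * ψ.mat * u.val + η - ep • dual η).submatrix σ σ →
        f φ.cls = f ψ.cls + E.h ψ.κ u := by
  have hep2 := sq_one_of hep
  have hbase : ∀ (ψ φ : NForm R G ep) (σ : φ.κ ≃ ψ.κ)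
      (u : (Matrix ψ.κ ψ.κ (MonoidAlgebra R G))ˣ) (η : Matrix ψ.κ ψ.κ (MonoidAlgebra R G)),
      φ.mat = (dual u.val * ψ.mat * u.val + η - ep • dual η).submatrix σ σ →
      E.e φ.κ φ.mat = E.e ψ.κ ψ.mat + E.h ψ.κ u := by
    intro ψ φ σ u η h
    have h1 := nonsing_base ψ.mat u ψ.nonsing
    rw [h, E.reindex _ _ σ _ (by rw [nonsing_even hep2]; exact h1), E.even _ _ _ h1,
      E.base _ _ _ ψ.nonsing]
  let f0 : FreeAbelianGroup (NForm R G ep) →+ V := FreeAbelianGroup.lift fun ψ => E.e ψ.κ ψ.mat
  have hf0 : ∀ ψ : NForm R G ep, f0 (FreeAbelianGroup.of ψ) = E.e ψ.κ ψ.mat := fun ψ =>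
    FreeAbelianGroup.lift_apply_of _ _
  have h : AddSubgroup.closure {x | Rel R G ep x} ≤ f0.ker := by
    rw [AddSubgroup.closure_le]
    intro x hx
    rw [SetLike.mem_coe, AddMonoidHom.mem_ker]
    cases hx with
    | sum ψ φ θ σ h =>
      rw [map_sub, map_sub, hf0, hf0, hf0, h]
      have hn : IsUnit (Matrix.fromBlocks ψ.mat 0 0 φ.mat
          + ep • dual (Matrix.fromBlocks ψ.mat 0 0 φ.mat)) := by
        obtain ⟨a, ha⟩ := ψ.nonsing
        obtain ⟨b, hb⟩ := φ.nonsing
        rw [dual_diagBlocks, Matrix.fromBlocks_smul, Matrix.fromBlocks_add, smul_zero, smul_zero,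
          add_zero, add_zero, ← ha, ← hb]
        refine ⟨⟨Matrix.fromBlocks a.val 0 0 b.val, Matrix.fromBlocks a⁻¹.val 0 0 b⁻¹.val,
          ?_, ?_⟩, rfl⟩
        · rw [Matrix.fromBlocks_multiply]; simp
        · rw [Matrix.fromBlocks_multiply]; simp
      rw [E.reindex _ _ σ _ hn, E.sum _ _ _ _ ψ.nonsing φ.nonsing]
      abel
    | iso ψ φ σ u hu η h =>
      rw [map_sub, hf0, hf0, hbase ψ φ σ u η h, E.h_simple _ _ hu, add_zero, sub_self]
    | hyp ψ κ σ dec h =>
      rw [hf0, h]
      have : Fintype κ := by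
        have : Fintype (κ ⊕ κ) := Fintype.ofEquiv _ σ
        exact Fintype.ofInjective (Sum.inl : κ → κ ⊕ κ) Sum.inl_injective
      have hc : hyp R G κ = (Matrix.fromBlocks (0 : Matrix κ κ R) (1 : Matrix κ κ R) 0 0).map
          (MonoidAlgebra.single 1) := by
        unfold hyp
        rw [Matrix.fromBlocks_map]
        congr 1
        · ext i j; simp
        · ext1 i j
          rw [Matrix.map_apply]
          by_cases hij : i = j
          · subst hij; rw [Matrix.one_apply_eq, Matrix.one_apply_eq, MonoidAlgebra.one_def]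
          · rw [Matrix.one_apply_ne hij, Matrix.one_apply_ne hij, MonoidAlgebra.single_zero]
        · ext i j; simp
        · ext i j; simp
      have hu2 : IsUnit (hyp R G κ + ep • dual (hyp R G κ)) := by
        unfold hyp
        rw [dual_fromBlocks, Matrix.fromBlocks_smul, Matrix.fromBlocks_add, dual_zero', dual_one]
        simp only [add_zero, zero_add, smul_zero]
        exact hyp_unit hep2
      rw [E.reindex _ _ σ _ hu2, hc]
      exact E.const _ _
  have h1 : ∀ ψ : NForm R G ep, (QuotientAddGroup.lift _ f0 h : L0s R G ep →+ V) ψ.cls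
      = E.e ψ.κ ψ.mat := fun ψ => hf0 ψ
  refine ⟨QuotientAddGroup.lift _ f0 h, h1, fun ψ φ σ u η hφ => ?_⟩
  exact (h1 φ).trans ((hbase ψ φ σ u η hφ).trans (congrArg (· + _) (h1 ψ).symm))

end

/-! ## Change of rings -/

section Pull

variable {R' : Type} [Ring R'] [StarRing R'] (f : R' →+* R)

/-- the homomorphism `R'[G] → R[G]` -/
noncomputable abbrev mapG (G : Type) [Group G] : MonoidAlgebra R' G →+* MonoidAlgebra R G :=
  MonoidAlgebra.mapRingHom G f

/-- the homomorphism of matrices, as a homomorphism of monoids -/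
noncomputable abbrev mapM (G : Type) [Group G] (κ : Type) [Fintype κ] [DecidableEq κ] :
    Matrix κ κ (MonoidAlgebra R' G) →* Matrix κ κ (MonoidAlgebra R G) :=
  RingHom.toMonoidHom (RingHom.mapMatrix (m := κ) (mapG f G))

lemma mapG_single (g : G) (r : R') :
    mapG f G (MonoidAlgebra.single g r) = MonoidAlgebra.single g (f r) :=
  MonoidAlgebra.mapRingHom_single f g r

variable {f}

lemma mapG_conj (hf : ∀ x, f (star x) = star (f x)) (x : MonoidAlgebra R' G) :
    mapG f G (conj x) = conj (mapG f G x) := by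
  induction x using MonoidAlgebra.induction_linear with
  | zero => rw [conj_zero, map_zero, conj_zero]
  | add x y hx hy => rw [conj_add, map_add, hx, hy, map_add, conj_add]
  | single g r => rw [conj_single, mapG_single, mapG_single, conj_single, hf]

lemma map_dual (hf : ∀ x, f (star x) = star (f x)) {κ : Type*}
    (x : Matrix κ κ (MonoidAlgebra R' G)) :
    (dual x).map (mapG f G) = dual (x.map (mapG f G)) := by
  ext1 i j
  simp only [dual, Matrix.transpose_apply, Matrix.map_apply]
  exact mapG_conj hf _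

variable (h2 : ∀ x : R, x + x = 0)
include h2

lemma two_mat {κ : Type*} (x : Matrix κ κ (MonoidAlgebra R G)) : x + x = 0 := by
  ext1 i j
  rw [Matrix.add_apply, Matrix.zero_apply]
  induction x i j using MonoidAlgebra.induction_linear with
  | zero => rw [add_zero]
  | add x y hx hy =>
    have : x + y + (x + y) = (x + x) + (y + y) := by abel
    rw [this, hx, hy, add_zero]
  | single g r => rw [← MonoidAlgebra.single_add, h2, MonoidAlgebra.single_zero]

lemma ep_smul {ep : ℤ} (hep : ep = 1 ∨ ep = -1) {κ : Type*}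
    (x : Matrix κ κ (MonoidAlgebra R G)) : ep • x = x := by
  rcases hep with h | h
  · rw [h, one_smul]
  · rw [h, neg_smul, one_smul, neg_eq_iff_add_eq_zero, two_mat h2]

omit [Group G] in
lemma ep_smul_R {ep : ℤ} (hep : ep = 1 ∨ ep = -1) {κ : Type*} (x : Matrix κ κ R) : ep • x = x := by
  rcases hep with h | h
  · rw [h, one_smul]
  · rw [h, neg_smul, one_smul, neg_eq_iff_add_eq_zero]
    ext1 i j
    exact h2 _

lemma map_nonsing (hf : ∀ x, f (star x) = star (f x)) {ep : ℤ} (hep : ep = 1 ∨ ep = -1)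
    {κ : Type*} [Fintype κ] [DecidableEq κ] (ψ : Matrix κ κ (MonoidAlgebra R' G))
    (h : IsUnit (ψ + ep • dual ψ)) :
    IsUnit (ψ.map (mapG f G) + (1 : ℤ) • dual (ψ.map (mapG f G))) := by
  have h1 := h.map (mapG f G).mapMatrix
  have e : (mapG f G).mapMatrix (ψ + ep • dual ψ) =
      ψ.map (mapG f G) + (1 : ℤ) • dual (ψ.map (mapG f G)) := by
    rw [map_add, map_zsmul, ep_smul h2 hep, one_smul]
    show ψ.map (mapG f G) + (dual ψ).map (mapG f G) = _
    rw [map_dual hf]
  rwa [e] at h1

omit h2 in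
lemma map_simple {κ : Type} [Fintype κ] [DecidableEq κ] (u : (Matrix κ κ (MonoidAlgebra R' G))ˣ)
    (hu : u ∈ Simple R' G κ) :
    Units.map (mapM f G κ) u ∈ Simple R G κ := by
  have h : Simple R' G κ ≤ (Simple R G κ).comap (Units.map (mapM f G κ)) := by
    unfold Simple
    rw [Subgroup.closure_le]
    intro v hv
    rw [SetLike.mem_coe, Subgroup.mem_comap]
    apply Subgroup.subset_closure
    rcases hv with ⟨i, j, a, hij, hv⟩ | ⟨c, hv⟩ | ⟨g, hv⟩
    · left
      refine ⟨i, j, mapG f G a, hij, ?_⟩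
      show (mapG f G).mapMatrix v.val = _
      rw [hv, map_add, map_one]
      congr 1
      ext1 k l
      simp only [RingHom.mapMatrix_apply, Matrix.map_apply, Matrix.single_apply]
      split_ifs
      · rfl
      · exact map_zero _
    · right; left
      refine ⟨Units.map (RingHom.toMonoidHom (RingHom.mapMatrix (m := κ) f)) c, ?_⟩
      show (mapG f G).mapMatrix v.val = _
      rw [hv]
      ext1 k l
      show mapG f G (MonoidAlgebra.single 1 _) = MonoidAlgebra.single 1 (f _)
      exact mapG_single f _ _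
    · right; right
      refine ⟨g, ?_⟩
      show (mapG f G).mapMatrix v.val = _
      rw [hv]
      ext1 k l
      simp only [RingHom.mapMatrix_apply, Matrix.map_apply, Matrix.diagonal_apply]
      split_ifs
      · rw [mapG_single, map_one]
      · exact map_zero _
  exact h hu

/-- the pull-back of an invariant along a homomorphism of rings with involution `R' → R`,
`2 R = 0` -/
noncomputable def Invariant.pull {V : Type} [AddCommGroup V] (E : Invariant R G 1 V)
    (hf : ∀ x, f (star x) = star (f x)) {ep : ℤ} (hep : ep = 1 ∨ ep = -1) :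
    Invariant R' G ep V where
  e κ _ _ ψ := E.e κ (ψ.map (mapG f G))
  h κ _ _ u := E.h κ (Units.map (mapM f G κ) u)
  h_mul κ _ _ u v := by rw [map_mul, E.h_mul]
  h_simple κ _ _ u hu := E.h_simple κ _ (map_simple u hu)
  reindex κ μ _ _ _ _ σ ψ h := by
    show E.e κ ((ψ.submatrix σ σ).map (mapG f G)) = _
    rw [← Matrix.submatrix_map]
    exact E.reindex κ μ σ _ (map_nonsing h2 hf hep ψ h)
  sum κ μ _ _ _ _ ψ φ h h' := by
    show E.e (κ ⊕ μ) ((Matrix.fromBlocks ψ 0 0 φ).map (mapG f G)) = _
    rw [Matrix.fromBlocks_map, Matrix.map_zero _ (map_zero _), Matrix.map_zero _ (map_zero _)]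
    exact E.sum κ μ _ _ (map_nonsing h2 hf hep ψ h) (map_nonsing h2 hf hep φ h')
  even κ _ _ ψ η h := by
    show E.e κ ((ψ + η - ep • dual η).map (mapG f G)) = _
    have e1 : (ψ + η - ep • dual η).map (mapG f G) = ψ.map (mapG f G) + η.map (mapG f G) -
        (1 : ℤ) • dual (η.map (mapG f G)) := by
      have := map_sub (mapG f G).mapMatrix (ψ + η) (ep • dual η)
      rw [map_add, map_zsmul] at this
      refine this.trans ?_
      show ψ.map (mapG f G) + η.map (mapG f G) - ep • ((dual η).map (mapG f G)) = _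
      rw [map_dual hf, ep_smul h2 hep, one_smul]
    rw [e1]
    exact E.even κ _ _ (map_nonsing h2 hf hep ψ h)
  base κ _ _ ψ u h := by
    show E.e κ ((dual u.val * ψ * u.val).map (mapG f G)) = _
    have e1 : (dual u.val * ψ * u.val).map (mapG f G) =
        dual (u.val.map (mapG f G)) * ψ.map (mapG f G) * u.val.map (mapG f G) := by
      rw [Matrix.map_mul, Matrix.map_mul, map_dual hf]
    rw [e1]
    exact E.base κ _ (Units.map (mapM f G κ) u) (map_nonsing h2 hf hep ψ h)
  const κ _ _ c := by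
    show E.e κ ((c.map (MonoidAlgebra.single 1)).map (mapG f G)) = 0
    have e1 : (c.map (MonoidAlgebra.single (1 : G))).map (mapG f G) =
        (c.map f).map (MonoidAlgebra.single (1 : G)) := by
      ext1 i j
      exact mapG_single f _ _
    rw [e1]
    exact E.const κ _

lemma Invariant.pull_e {V : Type} [AddCommGroup V] (E : Invariant R G 1 V)
    (hf : ∀ x, f (star x) = star (f x)) {ep : ℤ} (hep : ep = 1 ∨ ep = -1) (κ : Type) [Fintype κ]
    [DecidableEq κ] (ψ : Matrix κ κ (MonoidAlgebra R' G)) :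
    (E.pull h2 hf hep).e κ ψ = E.e κ (ψ.map (mapG f G)) := rfl

end Pull

end Forms

end Pool.Agent.Lib.MP8a3537.K2V
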