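import Pool.Agent.Lib.MP_8a3537_gt.K2.LiftZ
import Pool.Agent.Lib.MP_8a3537_gt.K2V.L0
import Pool.Agent.Lib.MP_8a3537_gt.K2V.Phi

/-!
# Lifts of the forms `Φ_x ⊗ (1 1; 0 1)` to the integral group ring
-/

namespace Pool.Agent.Lib.MP8a3537.K2V

open Matrix MonoidAlgebra Pool.Agent.Lib.MP8a3537.K2.LiftZ
open Pool.Agent.Lib.MP8a3537.D1 (cm)
open Pool.Agent.Lib.MP8a3537.K2 (bd SWord)

namespace LiftS

variable {S : Type} [Ring S] (h2 : ∀ x : S, x + x = 0)

include h2 in
lemma cast_eq {n m : ℤ} (h : (n : ZMod 2) = m) : (n : S) = m := by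
  rw [← sub_eq_zero, ← Int.cast_sub, ZMod.intCast_zmod_eq_zero_iff_dvd] at h
  obtain ⟨k, hk⟩ := h
  have h3 : ((n - m : ℤ) : S) = 0 := by
    rw [hk]
    push_cast
    have : (2 : S) = 0 := by
      have := h2 1
      rwa [one_add_one_eq_two] at this
    rw [this, zero_mul]
  rw [Int.cast_sub, sub_eq_zero] at h3
  exact h3

/-- the reduction of an integral matrix -/
def redS (S : Type) [Ring S] (c : Matrix (Fin 2) (Fin 2) ℤ) : Matrix (Fin 2) (Fin 2) S :=
  c.map (Int.cast)

include h2 in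
lemma redS_eq {c d : Matrix (Fin 2) (Fin 2) ℤ} (h : red2 c = red2 d) : redS S c = redS S d := by
  ext1 i j
  exact cast_eq h2 (congrFun (congrFun h i) j)

lemma redS_one : redS S 1 = 1 := by
  ext1 i j
  rw [redS, Matrix.map_apply]
  by_cases h : i = j
  · subst h; rw [Matrix.one_apply_eq, Matrix.one_apply_eq, Int.cast_one]
  · rw [Matrix.one_apply_ne h, Matrix.one_apply_ne h, Int.cast_zero]

lemma red2_one : red2 1 = 1 := by decide

variable {G : Type} [Group G]

/-- the reduction of matrices over `ℤ[G]` -/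
noncomputable def rS (S : Type) [Ring S] : Matrix (Fin 2) (Fin 2) (MonoidAlgebra ℤ G) →+*
    Matrix (Fin 2) (Fin 2) (MonoidAlgebra S G) :=
  (MonoidAlgebra.mapRingHom G (Int.castRingHom S)).mapMatrix

lemma rS_cm (g : G) (c : Matrix (Fin 2) (Fin 2) ℤ) :
    rS S (cm g c) = (redS S c).map (MonoidAlgebra.single g) := by
  ext1 i j
  exact MonoidAlgebra.mapRingHom_single _ _ _

lemma map_scalar (g : G) : (1 : Matrix (Fin 2) (Fin 2) S).map (MonoidAlgebra.single g)
    = Matrix.scalar (Fin 2) (MonoidAlgebra.single g (1 : S)) := by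
  ext1 i j
  rw [Matrix.scalar_apply, Matrix.map_apply]
  by_cases h : i = j
  · subst h; rw [Matrix.one_apply_eq, Matrix.diagonal_apply_eq]
  · rw [Matrix.one_apply_ne h, Matrix.diagonal_apply_ne _ h, MonoidAlgebra.single_zero]

include h2 in
lemma rS_one (g : G) (c : Matrix (Fin 2) (Fin 2) ℤ) (hc : red2 c = 1) :
    rS S (cm g c) = Matrix.scalar (Fin 2) (MonoidAlgebra.single g (1 : S)) := by
  rw [rS_cm, redS_eq h2 (hc.trans red2_one.symm), redS_one, map_scalar]

include h2 in
lemma rS_phi (x : ℕ → G) (h : ℕ) (i j : Fin h) :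
    rS S ((word x).phi i j) = Matrix.scalar (Fin 2) (Phi S x h i j) := by
  have hX : ∀ i, rS S ((word x).x i) = Matrix.scalar (Fin 2) (MonoidAlgebra.single (x i) (1 : S)) :=
    fun i => rS_one h2 _ _ (red2_mono i)
  have hB : ∀ i, rS S ((word x).B i) = Matrix.scalar (Fin 2) (MonoidAlgebra.single (bd x i) (1 : S)) :=
    fun i => rS_one h2 _ _ (red2_prodm i)
  have hsX : ∀ i, rS S ((word x).s ((word x).x i)) = Matrix.scalar (Fin 2) (MonoidAlgebra.single (x i)⁻¹ (1 : S)) := by
    intro i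
    show rS S (sA (cm (x i) (mono i))) = _
    rw [sA_cm]
    exact rS_one h2 _ _ (red2_s_mono i)
  have hsB : ∀ i, rS S ((word x).s ((word x).B i))
      = Matrix.scalar (Fin 2) (MonoidAlgebra.single (bd x i)⁻¹ (1 : S)) := by
    intro i
    show rS S (sA (cm (bd x i) (prodm i))) = _
    rw [sA_cm]
    exact rS_one h2 _ _ (red2_s_prodm i)
  unfold SWord.phi Phi
  rw [Matrix.of_apply]
  by_cases hij : i = j
  · subst hij
    rw [if_pos rfl, if_pos rfl, hX]
  · have hij' : ¬ (i : ℕ) = j := fun h => hij (Fin.ext h)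
    rw [if_neg hij, if_neg hij']
    by_cases hlt : i < j
    · have hlt' : (i : ℕ) < j := hlt
      rw [if_pos hlt, if_pos hlt', SWord.s_del, SWord.del, map_mul, map_mul, map_mul, map_add,
        map_add, map_one, hX, hB, hsX, hsB, ← map_one (Matrix.scalar (Fin 2)), ← map_add,
        ← map_add, ← map_mul, ← map_mul, ← map_mul]
      congr 1
      rw [mul_assoc (1 + MonoidAlgebra.single (x i)⁻¹ (1 : S)) (MonoidAlgebra.single (bd x ↑i)⁻¹ (1 : S)),
        ← mul_assoc (MonoidAlgebra.single (bd x ↑i)⁻¹ (1 : S)), MonoidAlgebra.single_mul_single, mul_one,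
        ← mul_assoc]
    · have hlt' : ¬ (i : ℕ) < j := hlt
      rw [if_neg hlt, if_neg hlt', map_zero, map_zero]

/-- The matrix `(1 1; 0 1)`. -/
def arf1 (S : Type) [Ring S] : Matrix (Fin 2) (Fin 2) S := !![1, 1; 0, 1]

include h2 in
lemma lift_red (x : ℕ → G) (h : ℕ) :
    (lift x h).map (MonoidAlgebra.mapRingHom G (Int.castRingHom S)) = PhiT x h (arf1 S) := by
  ext1 ik jl
  obtain ⟨i, k⟩ := ik
  obtain ⟨j, l⟩ := jl
  have h1 : ((lift x h).map (MonoidAlgebra.mapRingHom G (Int.castRingHom S))) (i, k) (j, l)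
      = (rS S (cm 1 Lam * ((word x).phi i j * cm 1 ee))) k l := rfl
  have hE : redS S ee = !![0, 1; 1, 1] := by
    ext1 i j
    fin_cases i <;> fin_cases j <;> simp [redS, ee]
  have hL : redS S Lam = !![0, 1; 1, 0] := by
    have h3 : redS S Lam = redS S !![0, 1; 1, 0] := redS_eq h2 (by decide)
    rw [h3]
    ext1 i j
    fin_cases i <;> fin_cases j <;> simp [redS]
  have h2' : rS S (cm (1 : G) Lam * ((word x).phi i j * cm 1 ee))
      = (redS S Lam).map (MonoidAlgebra.single 1)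
        * (Matrix.scalar (Fin 2) (Phi S x h i j) * (redS S ee).map (MonoidAlgebra.single 1)) := by
    rw [map_mul, map_mul, rS_cm, rS_cm, rS_phi h2]
  rw [h1, h2']
  obtain ⟨p, hp⟩ : ∃ p, Phi S x h i j = p := ⟨_, rfl⟩
  have h3 : PhiT x h (arf1 S) (i, k) (j, l) = p * MonoidAlgebra.single 1 (arf1 S k l) := by
    rw [← hp]; rfl
  rw [h3, hL, hE, hp]
  fin_cases k <;> fin_cases l <;>
    simp [Matrix.mul_apply, Fin.sum_univ_two, arf1, ← MonoidAlgebra.one_def]

/-- the two involutions of `ℤ[G]` agree -/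
lemma conj_int (x : MonoidAlgebra ℤ G) : GA.conj x = D1.conj x := by
  induction x using MonoidAlgebra.induction_linear with
  | zero => rw [GA.conj_zero, D1.conj_zero]
  | add x y hx hy => rw [GA.conj_add, D1.conj_add, hx, hy]
  | single g a => rw [GA.conj_single, D1.conj_single]; rfl

lemma dual_int {k : Type} (x : Matrix k k (MonoidAlgebra ℤ G)) : GA.dual x = D1.dual x := by
  ext1 i j
  exact conj_int (x j i)

/-- the lift, as a nonsingular form over `ℤ[G]` -/
noncomputable def liftN (x : ℕ → G) (h : ℕ) (hx : bd x h = 1) (he : Even h) : NForm ℤ G 1 where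
  κ := Fin h × Fin 2
  mat := lift x h
  nonsing := by
    rw [one_smul, dual_int]
    exact isUnit_lift x h hx he

end LiftS

end Pool.Agent.Lib.MP8a3537.K2V
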