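import Pool.Agent.Lib.MP_8a3537_gt.K2V.E
import Pool.Agent.Lib.MP_8a3537_gt.K2V.L0

/-!
# The invariant of a model of the calculus on `S[G]`: matrices, simple matrices
-/

set_option linter.unusedSectionVars false

namespace Pool.Agent.Lib.MP8a3537.K2V

open Matrix MonoidAlgebra Pool.Agent.Lib.MP8a3537.GA

section

variable {S G V : Type} [Ring S] [StarRing S] [Group G] [AddCommGroup V]

/-- a model of the calculus on the group ring `S[G]` -/
structure Good (P : Pre (MonoidAlgebra S G) (MonoidAlgebra S (G × G)) V) : Prop where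
  i1 : ∀ (g : G) (a : S), P.i1 (MonoidAlgebra.single g a) = MonoidAlgebra.single (g, 1) a
  i2 : ∀ (g : G) (a : S), P.i2 (MonoidAlgebra.single g a) = MonoidAlgebra.single (1, g) a
  t : ∀ x, P.t x = conj x
  gen : ∀ (g h : G) (a : S), P.q (MonoidAlgebra.single (g, h) a + MonoidAlgebra.single (g * h, 1) a) = 0
  cyc : P.Cyc

variable {P : Pre (MonoidAlgebra S G) (MonoidAlgebra S (G × G)) V} (hP : Good P)
variable {κ μ : Type} [Fintype κ] [DecidableEq κ] [Fintype μ] [DecidableEq μ]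

include hP in
lemma MS_t (x : Matrix κ κ (MonoidAlgebra S G)) : (P.mat κ).t x = dual x := by
  ext1 i j
  exact hP.t (x j i)

lemma MS_q (α : Matrix κ κ (MonoidAlgebra S (G × G))) :
    (P.mat κ).q α = ∑ i, ∑ j, P.J (α i j) (α j i) := rfl

lemma MS_q_submatrix (σ : κ ≃ μ) (α : Matrix μ μ (MonoidAlgebra S (G × G))) :
    (P.mat κ).q (α.submatrix σ σ) = (P.mat μ).q α := by
  rw [MS_q, MS_q, ← Equiv.sum_comp σ]
  refine Finset.sum_congr rfl fun i _ => ?_
  rw [← Equiv.sum_comp σ]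
  rfl

lemma MS_q_fromBlocks (α : Matrix κ κ (MonoidAlgebra S (G × G)))
    (β : Matrix μ μ (MonoidAlgebra S (G × G))) :
    (P.mat (κ ⊕ μ)).q (Matrix.fromBlocks α 0 0 β) = (P.mat κ).q α + (P.mat μ).q β := by
  rw [Pre.q_blocks]
  have : ∑ i : κ, ∑ j : μ, P.I ((0 : Matrix κ μ (MonoidAlgebra S (G × G))) i j)
      ((0 : Matrix μ κ (MonoidAlgebra S (G × G))) j i) = 0 :=
    Finset.sum_eq_zero fun i _ => Finset.sum_eq_zero fun j _ => P.I_zero _
  rw [this, add_zero]

lemma MS_d_submatrix (σ : κ ≃ μ) (x : Matrix μ μ (MonoidAlgebra S G)) :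
    (P.mat κ).d (x.submatrix σ σ) = ((P.mat μ).d x).submatrix σ σ := rfl

lemma MS_i1_submatrix (σ : κ ≃ μ) (x : Matrix μ μ (MonoidAlgebra S G)) :
    (P.mat κ).i1 (x.submatrix σ σ) = ((P.mat μ).i1 x).submatrix σ σ := rfl

lemma MS_i1_fromBlocks (x : Matrix κ κ (MonoidAlgebra S G)) (y : Matrix μ μ (MonoidAlgebra S G)) :
    (P.mat (κ ⊕ μ)).i1 (Matrix.fromBlocks x 0 0 y)
      = Matrix.fromBlocks ((P.mat κ).i1 x) 0 0 ((P.mat μ).i1 y) := by
  ext1 i j
  rcases i with i | i <;> rcases j with j | j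
  · rfl
  · exact map_zero P.i1
  · exact map_zero P.i1
  · rfl

lemma MS_i2_fromBlocks (x : Matrix κ κ (MonoidAlgebra S G)) (y : Matrix μ μ (MonoidAlgebra S G)) :
    (P.mat (κ ⊕ μ)).i2 (Matrix.fromBlocks x 0 0 y)
      = Matrix.fromBlocks ((P.mat κ).i2 x) 0 0 ((P.mat μ).i2 y) := by
  ext1 i j
  rcases i with i | i <;> rcases j with j | j
  · rfl
  · exact map_zero P.i2
  · exact map_zero P.i2
  · rfl

lemma MS_d_fromBlocks (x : Matrix κ κ (MonoidAlgebra S G)) (y : Matrix μ μ (MonoidAlgebra S G)) :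
    (P.mat (κ ⊕ μ)).d (Matrix.fromBlocks x 0 0 y)
      = Matrix.fromBlocks ((P.mat κ).d x) 0 0 ((P.mat μ).d y) := by
  rw [Pre.d, MS_i1_fromBlocks, MS_i2_fromBlocks, Matrix.fromBlocks_add, add_zero, add_zero]
  rfl

include hP in
lemma MS_d_const (x : Matrix κ κ S) :
    (P.mat κ).d (x.map (MonoidAlgebra.single (1 : G))) = 0 := by
  ext1 i j
  show P.i2 (MonoidAlgebra.single 1 (x i j)) + P.i1 (MonoidAlgebra.single 1 (x i j)) = 0
  rw [hP.i1, hP.i2]
  exact P.t2 _

include hP in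
/-- matrices over `S` have the invariant zero -/
theorem MS_e_const (x : Matrix κ κ S) :
    (P.mat κ).e (x.map (MonoidAlgebra.single (1 : G))) = 0 := by
  unfold Pre.e
  rw [MS_d_const hP, mul_zero, Pre.q_zero]

include hP in
/-- the invariant is additive on orthogonal sums -/
theorem MS_e_sum (ψ : Matrix κ κ (MonoidAlgebra S G)) (φ : Matrix μ μ (MonoidAlgebra S G))
    (hψ : IsUnit (ψ + dual ψ)) (hφ : IsUnit (φ + dual φ)) :
    (P.mat (κ ⊕ μ)).e (Matrix.fromBlocks ψ 0 0 φ) = (P.mat κ).e ψ + (P.mat μ).e φ := by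
  obtain ⟨u, hu⟩ := hψ
  obtain ⟨v, hv⟩ := hφ
  have hs : Matrix.fromBlocks ψ 0 0 φ + (P.mat (κ ⊕ μ)).t (Matrix.fromBlocks ψ 0 0 φ)
      = Matrix.fromBlocks u.val 0 0 v.val := by
    rw [MS_t hP, dual_diagBlocks, Matrix.fromBlocks_add, add_zero, add_zero,
      hu, hv]
  rw [Pre.e_eq (S := P.mat κ) (ψ := ψ) (μ := u⁻¹.val)
      (by rw [MS_t hP, ← hu, Units.inv_mul]) (by rw [MS_t hP, ← hu, Units.mul_inv]),
    Pre.e_eq (S := P.mat μ) (ψ := φ) (μ := v⁻¹.val)
      (by rw [MS_t hP, ← hv, Units.inv_mul]) (by rw [MS_t hP, ← hv, Units.mul_inv]),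
    Pre.e_eq (S := P.mat (κ ⊕ μ)) (ψ := Matrix.fromBlocks ψ 0 0 φ)
      (μ := Matrix.fromBlocks u⁻¹.val 0 0 v⁻¹.val)
      (by rw [hs, Matrix.fromBlocks_multiply]; simp)
      (by rw [hs, Matrix.fromBlocks_multiply]; simp),
    MS_i1_fromBlocks, MS_d_fromBlocks, Matrix.fromBlocks_multiply]
  simp only [Matrix.mul_zero, Matrix.zero_mul, add_zero, zero_add]
  rw [MS_q_fromBlocks]

include hP in
/-- the invariant does not depend on the numbering of the base -/
theorem MS_e_reindex (σ : κ ≃ μ) (ψ : Matrix μ μ (MonoidAlgebra S G))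
    (hψ : IsUnit (ψ + dual ψ)) :
    (P.mat κ).e (ψ.submatrix σ σ) = (P.mat μ).e ψ := by
  obtain ⟨u, hu⟩ := hψ
  have hs : ψ.submatrix σ σ + (P.mat κ).t (ψ.submatrix σ σ) = u.val.submatrix σ σ := by
    rw [MS_t hP, dual_submatrix, hu]
    rfl
  rw [Pre.e_eq (S := P.mat μ) (ψ := ψ) (μ := u⁻¹.val)
      (by rw [MS_t hP, ← hu, Units.inv_mul]) (by rw [MS_t hP, ← hu, Units.mul_inv]),
    Pre.e_eq (S := P.mat κ) (ψ := ψ.submatrix σ σ) (μ := u⁻¹.val.submatrix σ σ)
      (by rw [hs, Matrix.submatrix_mul_equiv, Units.inv_mul, Matrix.submatrix_one_equiv])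
      (by rw [hs, Matrix.submatrix_mul_equiv, Units.mul_inv, Matrix.submatrix_one_equiv]),
    MS_i1_submatrix, MS_d_submatrix, Matrix.submatrix_mul_equiv, MS_q_submatrix]

/-! ### Simple matrices -/

include P in
lemma inv_of_square {u : (Matrix κ κ (MonoidAlgebra S G))ˣ} {x : Matrix κ κ (MonoidAlgebra S G)}
    (hu : u.val = 1 + x) (hx : x * x = 0) : u⁻¹.val = 1 + x := by
  have h2 : x + x = 0 := (P.mat κ).b2 x
  have h1 : u.val * (1 + x) = 1 := by
    rw [hu]
    have : (1 + x) * (1 + x) = 1 + (x + x) + x * x := by noncomm_ring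
    rw [this, h2, hx, add_zero, add_zero]
  exact Units.inv_eq_of_mul_eq_one_right h1

lemma MS_i1_single (i j : κ) (a : MonoidAlgebra S G) :
    (P.mat κ).i1 (Matrix.single i j a) = Matrix.single i j (P.i1 a) :=
  Matrix.map_single _ _ _ P.i1

lemma MS_i2_single (i j : κ) (a : MonoidAlgebra S G) :
    (P.mat κ).i2 (Matrix.single i j a) = Matrix.single i j (P.i2 a) :=
  Matrix.map_single _ _ _ P.i2

/-- the obstruction vanishes on elementary matrices -/
theorem MS_h_elem (u : (Matrix κ κ (MonoidAlgebra S G))ˣ) (i j : κ) (a : MonoidAlgebra S G)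
    (hij : i ≠ j) (hu : u.val = 1 + Matrix.single i j a) : (P.mat κ).h u = 0 := by
  have h0 : Matrix.single i j a * Matrix.single i j a = 0 :=
    Matrix.single_mul_single_of_ne (h := Ne.symm hij) ..
  have h1 := inv_of_square (P := P) hu h0
  have h2 : (P.mat κ).d u.val = Matrix.single i j (P.i2 a + P.i1 a) := by
    rw [hu, Pre.d_add, Pre.d_one', zero_add, Pre.d, MS_i1_single, MS_i2_single,
      Matrix.single_add]
  unfold Pre.h
  rw [h1, h2, map_add, map_one, MS_i2_single, mul_add, mul_one,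
    Matrix.single_mul_single_of_ne (h := Ne.symm hij), add_zero]
  unfold Pre.q
  rw [Pre.mat_J_single, if_neg (fun h => hij h.1.symm)]

include hP in
/-- the obstruction vanishes on matrices over `S` -/
theorem MS_h_const (u : (Matrix κ κ (MonoidAlgebra S G))ˣ) (x : Matrix κ κ S)
    (hu : u.val = x.map (MonoidAlgebra.single (1 : G))) : (P.mat κ).h u = 0 := by
  unfold Pre.h
  rw [hu, MS_d_const hP, zero_mul, Pre.q_zero]

include hP in
/-- the obstruction vanishes on diagonal matrices with entries in `G` -/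
theorem MS_h_diag (u : (Matrix κ κ (MonoidAlgebra S G))ˣ) (g : κ → G)
    (hu : u.val = Matrix.diagonal (fun i => MonoidAlgebra.single (g i) (1 : S))) :
    (P.mat κ).h u = 0 := by
  have h1 : u⁻¹.val = Matrix.diagonal (fun i => MonoidAlgebra.single (g i)⁻¹ (1 : S)) := by
    refine Units.inv_eq_of_mul_eq_one_right ?_
    rw [hu, Matrix.diagonal_mul_diagonal, ← Matrix.diagonal_one]
    congr 1
    funext i
    rw [MonoidAlgebra.single_mul_single, mul_inv_cancel, mul_one, MonoidAlgebra.one_def]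
  have h2 : (P.mat κ).d u.val = Matrix.diagonal
      (fun i => MonoidAlgebra.single ((1, g i) : G × G) (1 : S) + MonoidAlgebra.single (g i, 1) 1) := by
    rw [hu]
    ext1 i j
    show P.i2 (Matrix.diagonal _ i j) + P.i1 (Matrix.diagonal _ i j) = _
    by_cases hij : i = j
    · subst hij
      rw [Matrix.diagonal_apply_eq, Matrix.diagonal_apply_eq, hP.i2, hP.i1]
    · rw [Matrix.diagonal_apply_ne _ hij, Matrix.diagonal_apply_ne _ hij, map_zero, map_zero,
        add_zero]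
  have h3 : (P.mat κ).i2 u⁻¹.val = Matrix.diagonal
      (fun i => MonoidAlgebra.single ((1, (g i)⁻¹) : G × G) (1 : S)) := by
    rw [h1]
    ext1 i j
    show P.i2 (Matrix.diagonal _ i j) = _
    by_cases hij : i = j
    · subst hij
      rw [Matrix.diagonal_apply_eq, Matrix.diagonal_apply_eq, hP.i2]
    · rw [Matrix.diagonal_apply_ne _ hij, Matrix.diagonal_apply_ne _ hij, map_zero]
  have h4 : (P.mat κ).q (Matrix.diagonal
      (fun i => MonoidAlgebra.single ((g i, (g i)⁻¹) : G × G) (1 : S)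
        + MonoidAlgebra.single (g i * (g i)⁻¹, 1) 1)) = 0 := by
    rw [MS_q]
    refine Finset.sum_eq_zero fun i _ => Finset.sum_eq_zero fun j _ => ?_
    by_cases hij : i = j
    · subst hij
      rw [Matrix.diagonal_apply_eq]
      exact hP.gen (g i) (g i)⁻¹ 1
    · rw [Matrix.diagonal_apply_ne _ hij, P.J_zero]
  unfold Pre.h
  rw [h2, h3, Matrix.diagonal_mul_diagonal]
  have h5 : (fun i => (MonoidAlgebra.single ((1, g i) : G × G) (1 : S)
        + MonoidAlgebra.single (g i, 1) 1) * MonoidAlgebra.single ((1, (g i)⁻¹) : G × G) (1 : S))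
      = fun i => MonoidAlgebra.single ((g i, (g i)⁻¹) : G × G) (1 : S)
        + MonoidAlgebra.single (g i * (g i)⁻¹, 1) 1 := by
    funext i
    rw [add_mul, MonoidAlgebra.single_mul_single, MonoidAlgebra.single_mul_single]
    simp only [Prod.mk_mul_mk, mul_one, one_mul, mul_inv_cancel]
    rw [add_comm]
  rw [h5, h4]

include hP in
/-- the obstruction vanishes on simple matrices -/
theorem MS_h_simple (u : (Matrix κ κ (MonoidAlgebra S G))ˣ) (hu : u ∈ Simple S G κ) :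
    (P.mat κ).h u = 0 := by
  have hcyc : (P.mat κ).Cyc := Pre.mat_cyc _ κ hP.cyc
  refine Subgroup.closure_induction (p := fun u _ => (P.mat κ).h u = 0) ?_ ?_ ?_ ?_ hu
  · rintro v (⟨i, j, a, hij, hv⟩ | ⟨x, hv⟩ | ⟨g, hv⟩)
    · exact MS_h_elem v i j a hij hv
    · exact MS_h_const hP v x.val hv
    · exact MS_h_diag hP v g hv
  · exact Pre.h_one
  · intro v w _ _ hv hw
    rw [Pre.h_mul hcyc, hv, hw, add_zero]
  · intro v _ hv
    rw [Pre.h_inv hcyc, hv]

include hP in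
/-- even changes -/
theorem MS_e_even (ψ η : Matrix κ κ (MonoidAlgebra S G)) (hψ : IsUnit (ψ + dual ψ)) :
    (P.mat κ).e (ψ + η + dual η) = (P.mat κ).e ψ := by
  have := Pre.e_even (S := P.mat κ) (Pre.mat_cyc _ κ hP.cyc) (ψ := ψ) (by rw [MS_t hP]; exact hψ) η
  rwa [MS_t hP] at this

include hP in
/-- changes of the base -/
theorem MS_e_base (ψ : Matrix κ κ (MonoidAlgebra S G)) (u : (Matrix κ κ (MonoidAlgebra S G))ˣ)
    (hψ : IsUnit (ψ + dual ψ)) :
    (P.mat κ).e (dual u.val * ψ * u.val) = (P.mat κ).e ψ + (P.mat κ).h u := by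
  have := Pre.e_congr (S := P.mat κ) (Pre.mat_cyc _ κ hP.cyc) (ψ := ψ) (by rw [MS_t hP]; exact hψ) u
  rwa [MS_t hP] at this

/-- The invariant of a model of the calculus on `S[G]`. -/
noncomputable def inv2 : Invariant S G 1 V where
  e κ _ _ ψ := (P.mat κ).e ψ
  h κ _ _ u := (P.mat κ).h u
  h_mul κ _ _ u v := Pre.h_mul (Pre.mat_cyc _ κ hP.cyc) u v
  h_simple κ _ _ u hu := MS_h_simple hP u hu
  reindex κ μ _ _ _ _ σ ψ hψ := MS_e_reindex hP σ ψ (by rwa [one_smul] at hψ)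
  sum κ μ _ _ _ _ ψ φ hψ hφ := MS_e_sum hP ψ φ (by rwa [one_smul] at hψ) (by rwa [one_smul] at hφ)
  even κ _ _ ψ η hψ := by
    have h1 : ψ + η - (1 : ℤ) • dual η = ψ + η + dual η := by
      rw [one_smul, sub_eq_add_neg, neg_eq_of_add_eq_zero_left ((P.mat κ).b2 (dual η))]
    rw [h1]
    exact MS_e_even hP ψ η (by rwa [one_smul] at hψ)
  base κ _ _ ψ u hψ := MS_e_base hP ψ u (by rwa [one_smul] at hψ)
  const κ _ _ x := MS_e_const hP x

lemma inv2_e (κ : Type) [Fintype κ] [DecidableEq κ] (ψ : Matrix κ κ (MonoidAlgebra S G)) :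
    (inv2 hP).e κ ψ = (P.mat κ).e ψ := rfl

end

end Pool.Agent.Lib.MP8a3537.K2V
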