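import Pool.Agent.Lib.MP_8a3537_gt.K2V.ValueT
import Pool.Agent.Lib.MP_8a3537_gt.K2V.Simple
import Pool.Agent.Lib.MP_8a3537_gt.K2V.LiftZ
import Pool.Agent.Lib.MP_8a3537_gt.K2V.LiftDef
import Pool.Agent.Lib.MP_8a3537_gt.K2.Main
import Pool.Agent.Lib.MP_8a3537_gt.D1R.Sympl

/-!
# The degree two theorem for rings with involution: definitions
-/

namespace Pool.Agent.Lib.MP8a3537.K2V

open Matrix MonoidAlgebra TensorProduct Pool.Agent.Lib.MP8a3537.GA
open Pool.Agent.Lib.MP8a3537.K2 (bd pairing wordClass H2 SymC)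

section

variable {S : Type} [Ring S] [StarRing S] {k : Type} [Fintype k] [DecidableEq k]

lemma cls_trace_comm (x y : Matrix k k S) :
    D1R.cls (x * y).trace = D1R.cls (y * x).trace := by
  simp only [Matrix.trace, Matrix.diag_apply, Matrix.mul_apply, map_sum]
  rw [Finset.sum_comm]
  exact Finset.sum_congr rfl fun i _ => Finset.sum_congr rfl fun j _ => D1R.cls_comm _ _

/-- the two forms of the Arf invariant -/
lemma arf_conv (hS : ∀ x : S, x + x = 0) (ε : ℤˣ) {ψ : Matrix k k S} (hψ : IsUnit (ψ + ψᴴ)) :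
    D1R.cls (Matrix.trace (Ring.inverse (ψ + ψᴴ) * ψ * (Ring.inverse (ψ + ψᴴ) * ψ) +
      Ring.inverse (ψ + ψᴴ) * ψ * (Ring.inverse (ψ + ψᴴ) * ψ) * (Ring.inverse (ψ + ψᴴ) * ψ)))
      = D1R.arfR ε ψ := by
  have hε : (ε : ℤ) = 1 ∨ (ε : ℤ) = -1 := by
    rcases Int.units_eq_one_or ε with h | h
    · left; rw [h]; rfl
    · right; rw [h]; rfl
  have h1 : ψ + (ε : ℤ) • ψᴴ = ψ + ψᴴ := by rw [ep_smul_R hS hε]
  unfold D1R.arfR
  rw [h1]
  obtain ⟨L, hL⟩ : ∃ L, Ring.inverse (ψ + ψᴴ) = L := ⟨_, rfl⟩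
  rw [hL, Matrix.trace_add, Matrix.trace_add, map_add, map_add, D1R.trace_sq]
  have h2 : D1R.cls (L * ψ).trace = D1R.cls (ψ * L).trace := cls_trace_comm _ _
  have h3 : D1R.cls (L * ψ * (L * ψ) * (L * ψ)).trace
      = D1R.cls (ψ * L * (ψ * L) * (ψ * L)).trace := by
    have h4 : L * ψ * (L * ψ) * (L * ψ) = L * (ψ * L * ψ * L * ψ) := by noncomm_ring
    have h5 : ψ * L * (ψ * L) * (ψ * L) = (ψ * L * ψ * L * ψ) * L := by noncomm_ring
    rw [h4, h5, cls_trace_comm]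
  rw [h2, h3, add_comm]

end

section

variable {S V G : Type} [Ring S] [StarRing S] [AddCommGroup V] [Module (ZMod 2) V] [Group G]
  (c : SymC (ZMod 2) G) (τ : S →+ V) (hS : ∀ x : S, x + x = 0) (hG : ∀ g : G, g * g = 1 → g = 1)
  (τm : ∀ x y : S, τ (x * y) = τ (y * x)) (τs : ∀ x : S, τ (star x) = τ x)
  (τq : ∀ x : S, τ (x * x) = τ x)

include τq in
theorem base_good : Good (Base.base c τ hS hG τm τs) where
  i1 g a := by rw [Base.base_i1]; exact Base.i1_single g a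
  i2 g a := by rw [Base.base_i2]; exact Base.i2_single g a
  t x := Base.base_t c τ hS hG τm τs x
  gen g h a := Base.q_gen hG τm g h a
  cyc := Base.base_cyc c τ hS hG τm τs τq

end

section

variable {R S G : Type} [Ring R] [StarRing R] [Ring S] [StarRing S] [Group G]

theorem V_two (v : D1R.V S) : v + v = 0 := D1R.two_V v

lemma smul_z2 {V : Type*} [AddCommGroup V] [Module (ZMod 2) V] (p : ZMod 2) (v : V) :
    p • v = if p = 0 then 0 else v := by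
  have : p = 0 ∨ p = 1 := by revert p; decide
  rcases this with rfl | rfl
  · rw [if_pos rfl, zero_smul]
  · rw [if_neg one_ne_zero, one_smul]

lemma units_cases (ε : ℤˣ) : (ε : ℤ) = 1 ∨ (ε : ℤ) = -1 := by
  rcases Int.units_eq_one_or ε with h | h
  · left; rw [h]; rfl
  · right; rw [h]; rfl

/-- the homomorphisms on `L_n^s(R[G])` -/
theorem exists_hom (hS : ∀ x : S, x + x = 0) (hG : ∀ g : G, g * g = 1 → g = 1) (f : R →+* S)
    (hf : ∀ x, f (star x) = star (f x)) (ε : ℤˣ) (om : G → G → ZMod 2)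
    (hom : ∀ g h k, om g h + om (g * h) k = om h k + om g (h * k)) :
    ∃ (e : L0s R G (ε : ℤ) →+ D1R.V S)
      (d : (κ : Type) → [Fintype κ] → [DecidableEq κ] →
        (Matrix κ κ (MonoidAlgebra R G))ˣ →* Multiplicative (D1R.V S)),
      (∀ (ψ : NForm R G (ε : ℤ)) (x : ℕ → G) (h : ℕ) (k : Type) [Fintype k] [DecidableEq k]
        (ψ0 : Matrix k k S), bd x h = 1 → IsUnit (ψ0 + (ε : ℤ) • ψ0ᴴ) → IsLift f ψ x h ψ0 →
        e ψ.cls = if pairing om x h = 0 then 0 else D1R.arfR ε ψ0) ∧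
      (∀ c : NForm R G (ε : ℤ), IsConst c → e c.cls = 0) ∧
      (∀ (κ : Type) [Fintype κ] [DecidableEq κ] (u : (Matrix κ κ (MonoidAlgebra R G))ˣ),
        u ∈ Simple R G κ → d κ u = 1) ∧
      (∀ (ψ φ : NForm R G (ε : ℤ)) (σ : φ.κ ≃ ψ.κ) (u : (Matrix ψ.κ ψ.κ (MonoidAlgebra R G))ˣ)
        (η : Matrix ψ.κ ψ.κ (MonoidAlgebra R G)),
        φ.mat = (dual u.val * ψ.mat * u.val + η - (ε : ℤ) • dual η).submatrix σ σ →
        e φ.cls = e ψ.cls + Multiplicative.toAdd (d ψ.κ u)) := by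
  have hep := units_cases ε
  obtain ⟨w, w1, w2, w3, w4, w5, w6⟩ := K2.exists_sym hG om hom
  let _ : Module (ZMod 2) (D1R.V S) :=
    AddCommGroup.zmodModule (n := 2) (by intro x; rw [two_nsmul]; exact V_two x)
  let c : SymC (ZMod 2) G := K2.symC w w1 w2 w3 w4 w5
  have hgood := base_good c (D1R.cls (R := S)) hS hG D1R.cls_comm D1R.cls_star D1R.cls_sq
  let E := (inv2 hgood).pull hS hf hep
  obtain ⟨F, hF1, hF2⟩ := E.lift hep
  refine ⟨F, fun κ _ _ =>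
    { toFun := fun u => Multiplicative.ofAdd (E.h κ u)
      map_one' := ?_
      map_mul' := ?_ }, ?_, ?_, ?_, ?_⟩
  · rw [E.h_simple κ 1 (one_mem _), ofAdd_zero]
  · intro u v
    rw [E.h_mul, ofAdd_add]
  · intro ψ x h k _ _ ψ0 hx hψ0 ⟨σ, hσ⟩
    rw [ep_smul_R hS hep] at hψ0
    rw [hF1]
    have h1 : E.e ψ.κ ψ.mat = (inv2 hgood).e ψ.κ (ψ.mat.map (mapG f G)) := rfl
    have h2 := isUnit_PhiT hS hG x h hx hψ0
    have h3 := (inv2 hgood).reindex _ _ σ (PhiT x h ψ0) (by rw [one_smul]; exact h2)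
    rw [h1, hσ, h3, inv2_e, e_PhiT c D1R.cls hS hG D1R.cls_comm D1R.cls_star D1R.cls_sq x h hx hψ0]
    have h4 : ∑ i ∈ Finset.range h, (c.w (bd x i) (x i) + c.w (bd x i * x i) (x i))
        = pairing om x h := by
      have h5 := w6 h x (bd x) rfl (fun i _ => rfl) hx
      unfold pairing
      rw [← h5]
      refine Finset.sum_congr rfl fun i _ => ?_
      have h6 : ∀ p : ZMod 2, ZMod.castHom (dvd_refl 2) (ZMod 2) p = p := by decide
      show ZMod.castHom (dvd_refl 2) (ZMod 2) (w 1 (bd x i) (bd x i * x i))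
        + ZMod.castHom (dvd_refl 2) (ZMod 2) (w 1 (bd x i * x i) (bd x i * x i * x i)) = _
      rw [h6, h6]
      have h7 : bd x (i + 1) = bd x i * x i * x i := by
        show bd x i * (x i * x i) = _
        rw [mul_assoc]
      rw [h7]
    rw [h4]
    rw [smul_z2, arf_conv hS ε hψ0]
  · intro c' ⟨c0, hc⟩
    rw [hF1, hc]
    exact E.const _ c0
  · intro κ _ _ u hu
    exact congrArg Multiplicative.ofAdd (E.h_simple κ _ hu)
  · intro ψ φ σ u η h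
    exact hF2 ψ φ σ u η h

/-- injectivity -/
theorem injective (hS : ∀ x : S, x + x = 0) (hG : ∀ g : G, g * g = 1 → g = 1) (f : R →+* S)
    (hf : ∀ x, f (star x) = star (f x)) (ε : ℤˣ) (r : ℕ)
    (ψ : Fin r → NForm R G (ε : ℤ)) (x : Fin r → ℕ → G) (h : Fin r → ℕ)
    (hx : ∀ j, bd (x j) (h j) = 1) (k : Fin r → Type) [∀ j, Fintype (k j)]
    [∀ j, DecidableEq (k j)] (ψ0 : ∀ j, Matrix (k j) (k j) S)
    (hψ0 : ∀ j, IsUnit (ψ0 j + (ε : ℤ) • (ψ0 j)ᴴ)) (c : NForm R G (ε : ℤ))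
    (hl : ∀ j, IsLift f (ψ j) (x j) (h j) (ψ0 j)) (hc : IsConst c)
    (hz : ∑ j, (ψ j).cls + c.cls = 0) :
    ∑ j, wordClass (x j) (h j) (hx j) ⊗ₜ[ℤ] D1R.arfR ε (ψ0 j) = 0 := by
  refine Pool.Agent.Lib.MP8a3537.D1.tensor_zero (V := D1R.V S) V_two _ _ ?_
  intro δ
  obtain ⟨om, hom, hδ⟩ := K2.exists_cocycle δ
  obtain ⟨e, -, he1, he2, -⟩ := exists_hom hS hG f hf ε om hom
  have h1 := congrArg e hz
  rw [map_add, map_sum, map_zero, he2 c hc, add_zero] at h1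
  refine Eq.trans (Finset.sum_congr rfl fun j _ => ?_) h1
  rw [hδ, he1 (ψ j) (x j) (h j) (k j) (ψ0 j) (hx j) (hψ0 j) (hl j)]

omit [StarRing S] in
/-- the forms `Φ_x ⊗ ψ0` over `S[G]` -/
theorem exists_form [StarRing S] (hS : ∀ x : S, x + x = 0) (hG : ∀ g : G, g * g = 1 → g = 1)
    (ε : ℤˣ) (x : ℕ → G) (h : ℕ) (hx : bd x h = 1) {k : Type}
    [Fintype k] [DecidableEq k] (ψ0 : Matrix k k S) (hψ0 : IsUnit (ψ0 + (ε : ℤ) • ψ0ᴴ)) :
    ∃ ψ : NForm S G (ε : ℤ), IsLift (RingHom.id S) ψ x h ψ0 := by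
  rw [ep_smul_R hS (units_cases ε)] at hψ0
  refine ⟨{ κ := Fin h × k, mat := PhiT x h ψ0, nonsing := ?_ }, Equiv.refl _, ?_⟩
  · rw [ep_smul hS (units_cases ε)]
    exact isUnit_PhiT hS hG x h hx hψ0
  · rw [MonoidAlgebra.mapRingHom_id]
    ext1 i j
    rfl

end

/-! ### The integers -/

section Int

open LiftS

/-- the involution of `ZMod 2` -/
@[reducible] def star2 : StarRing (ZMod 2) := starRingOfComm

/-- the isomorphism `V(ℤ/2) = ℤ/2` -/
def V2 : letI := star2; D1R.V (ZMod 2) →+ ZMod 2 :=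
  letI := star2
  QuotientAddGroup.lift (D1R.relV (ZMod 2)) (AddMonoidHom.id (ZMod 2)) (by
    unfold D1R.relV
    rw [AddSubgroup.closure_le]
    rintro z (⟨x, y, rfl⟩ | ⟨x, rfl⟩ | ⟨x, rfl⟩)
    · show x * y - y * x = 0
      rw [mul_comm, sub_self]
    · show x - x = 0
      rw [sub_self]
    · show x * x - x = 0
      revert x; decide)

lemma arf_arf1 : letI := star2; V2 (D1R.arfR 1 (arf1 (ZMod 2))) = 1 := by
  letI := star2
  have h1 : (arf1 (ZMod 2) + ((1 : ℤˣ) : ℤ) • (arf1 (ZMod 2))ᴴ) = !![0, 1; 1, 0] := by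
    decide
  have h2 := D1R.arfR_eq (ε := 1) (ψ := arf1 (ZMod 2)) (L := !![0, 1; 1, 0])
    (by rw [h1]; decide) (by rw [h1]; decide)
  rw [h2]
  show (arf1 (ZMod 2) * !![0, 1; 1, 0] * (arf1 (ZMod 2) * !![0, 1; 1, 0])
    * (arf1 (ZMod 2) * !![0, 1; 1, 0]) + arf1 (ZMod 2) * !![0, 1; 1, 0]).trace = 1
  decide

variable {G : Type} [Group G]

/-- injectivity for `ℤ[G]` -/
theorem injective_int (hG : ∀ g : G, g * g = 1 → g = 1) (r : ℕ)
    (ψ : Fin r → NForm ℤ G 1) (x : Fin r → ℕ → G) (h : Fin r → ℕ)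
    (hx : ∀ j, bd (x j) (h j) = 1) (c : NForm ℤ G 1)
    (hl : ∀ j, IsLift (Int.castRingHom (ZMod 2)) (ψ j) (x j) (h j) (arf1 (ZMod 2)))
    (hc : IsConst c) (hz : ∑ j, (ψ j).cls + c.cls = 0) :
    ∑ j, wordClass (x j) (h j) (hx j) = 0 := by
  letI := star2
  rw [← Module.forall_dual_apply_eq_zero_iff (ZMod 2)]
  intro δ
  obtain ⟨om, hom, hδ⟩ := K2.exists_cocycle δ.toAddMonoidHom
  obtain ⟨e, -, he1, he2, -⟩ := exists_hom (R := ℤ) (S := ZMod 2) (by decide) hG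
    (Int.castRingHom (ZMod 2)) (fun x => rfl) 1 om hom
  have h0 : IsUnit (arf1 (ZMod 2) + ((1 : ℤˣ) : ℤ) • (arf1 (ZMod 2))ᴴ) := by
    have h1 : (arf1 (ZMod 2) + ((1 : ℤˣ) : ℤ) • (arf1 (ZMod 2))ᴴ) = !![0, 1; 1, 0] := by
      decide
    rw [h1]
    exact ⟨⟨!![0, 1; 1, 0], !![0, 1; 1, 0], by decide, by decide⟩, rfl⟩
  have h1 := congrArg (fun y => V2 (e y)) hz
  simp only [map_add, map_sum, map_zero] at h1
  rw [he2 c hc, map_zero, add_zero] at h1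
  rw [map_sum]
  refine Eq.trans (Finset.sum_congr rfl fun j _ => ?_) h1
  rw [he1 (ψ j) (x j) (h j) (Fin 2) (arf1 (ZMod 2)) (hx j) h0 (hl j)]
  have h2 : δ (wordClass (x j) (h j) (hx j)) = pairing om (x j) (h j) := hδ (x j) (h j) (hx j)
  rw [h2]
  have h3 : ∀ p : ZMod 2, p = 0 ∨ p = 1 := by decide
  rcases h3 (pairing om (x j) (h j)) with h4 | h4
  · rw [h4, if_pos rfl, map_zero]
  · rw [h4, if_neg one_ne_zero]
    exact arf_arf1.symm

/-- the lifts to `ℤ[G]` -/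
theorem exists_lift (x : ℕ → G) (h : ℕ) (hx : bd x h = 1) (he : Even h) :
    ∃ ψ : NForm ℤ G 1, IsLift (Int.castRingHom (ZMod 2)) ψ x h (arf1 (ZMod 2)) :=
  ⟨liftN x h hx he, Equiv.refl _, lift_red (by decide) x h⟩

end Int

end Pool.Agent.Lib.MP8a3537.K2V
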