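import Pool.Agent.Lib.MP_8a3537_gt.GA.Defs

/-!
# Tensor products of matrices over `F_2[X]` with matrices over a ring of characteristic two
(MP_8a3537_gt, folder K2V)
-/

namespace Pool.Agent.Lib.MP8a3537.K2V

open Matrix

theorem z01 (a : ZMod 2) : a = 0 ∨ a = 1 := by revert a; decide

section tw

variable {S X : Type*} [Ring S] [Module (ZMod 2) S]

theorem zsmul_mul (a b : ZMod 2) (s s' : S) : (a • s) * (b • s') = (a * b) • (s * s') := by
  rcases z01 a with rfl | rfl <;> rcases z01 b with rfl | rfl <;> simp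

/-- the element `α ⊗ s` of `S[X] = F_2[X] ⊗ S` -/
noncomputable def tw (α : MonoidAlgebra (ZMod 2) X) (s : S) : MonoidAlgebra S X :=
  α.coeff.sum fun u a => MonoidAlgebra.single u (a • s)

theorem tw_single (u : X) (a : ZMod 2) (s : S) : tw (MonoidAlgebra.single u a) s = MonoidAlgebra.single u (a • s) := by
  unfold tw
  rw [MonoidAlgebra.coeff_single, Finsupp.sum_single_index]
  rw [zero_smul, MonoidAlgebra.single_zero]

theorem add_tw (α β : MonoidAlgebra (ZMod 2) X) (s : S) : tw (α + β) s = tw α s + tw β s := by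
  classical
  unfold tw
  rw [MonoidAlgebra.coeff_add, Finsupp.sum_add_index']
  · intro u; rw [zero_smul, MonoidAlgebra.single_zero]
  · intro u a b; rw [add_smul, MonoidAlgebra.single_add]

theorem zero_tw (s : S) : tw (0 : MonoidAlgebra (ZMod 2) X) s = 0 := by
  have h := add_tw (0 : MonoidAlgebra (ZMod 2) X) 0 s
  rw [add_zero] at h
  exact left_eq_add.mp h

theorem tw_add (α : MonoidAlgebra (ZMod 2) X) (s s' : S) : tw α (s + s') = tw α s + tw α s' := by
  induction α using MonoidAlgebra.induction_linear with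
  | zero => rw [zero_tw, zero_tw, zero_tw, add_zero]
  | add x y hx hy => rw [add_tw, add_tw, add_tw, hx, hy]; abel
  | single u a => rw [tw_single, tw_single, tw_single, smul_add, MonoidAlgebra.single_add]

theorem tw_zero (α : MonoidAlgebra (ZMod 2) X) : tw α (0 : S) = 0 := by
  have h := tw_add α (0 : S) 0
  rw [add_zero] at h
  exact left_eq_add.mp h

theorem sum_tw {J : Type*} (u : Finset J) (f : J → MonoidAlgebra (ZMod 2) X) (s : S) :
    tw (∑ j ∈ u, f j) s = ∑ j ∈ u, tw (f j) s :=
  map_sum (AddMonoidHom.mk' (fun α => tw α s) fun a b => add_tw a b s) f u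

theorem tw_sum {J : Type*} (u : Finset J) (α : MonoidAlgebra (ZMod 2) X) (f : J → S) :
    tw α (∑ j ∈ u, f j) = ∑ j ∈ u, tw α (f j) :=
  map_sum (AddMonoidHom.mk' (fun s => tw α s) fun a b => tw_add α a b) f u

theorem tw_one [MulOneClass X] : tw (1 : MonoidAlgebra (ZMod 2) X) (1 : S) = 1 := by
  rw [MonoidAlgebra.one_def, tw_single, one_smul, MonoidAlgebra.one_def]

theorem tw_mul [Monoid X] (α β : MonoidAlgebra (ZMod 2) X) (s s' : S) : tw α s * tw β s' = tw (α * β) (s * s') := by
  induction α using MonoidAlgebra.induction_linear with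
  | zero => rw [zero_tw, zero_mul, zero_mul, zero_tw]
  | add x y hx hy => rw [add_tw, add_mul, add_mul, add_tw, hx, hy]
  | single u a =>
    induction β using MonoidAlgebra.induction_linear with
    | zero => rw [zero_tw, mul_zero, mul_zero, zero_tw]
    | add x y hx hy => rw [add_tw, mul_add, mul_add, add_tw, hx, hy]
    | single v b => rw [tw_single, tw_single, MonoidAlgebra.single_mul_single, MonoidAlgebra.single_mul_single, tw_single, zsmul_mul]

end tw

section tens

variable {S X ι κ : Type*} [Ring S] [Module (ZMod 2) S]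

/-- the Kronecker product of `A` over `F_2[X]` and `c` over `S` -/
noncomputable def tens (A : Matrix ι ι (MonoidAlgebra (ZMod 2) X)) (c : Matrix κ κ S) :
    Matrix (ι × κ) (ι × κ) (MonoidAlgebra S X) :=
  Matrix.of fun p q => tw (A p.1 q.1) (c p.2 q.2)

theorem tens_apply (A : Matrix ι ι (MonoidAlgebra (ZMod 2) X)) (c : Matrix κ κ S) (p q : ι × κ) :
    tens A c p q = tw (A p.1 q.1) (c p.2 q.2) := rfl

theorem add_tens (A B : Matrix ι ι (MonoidAlgebra (ZMod 2) X)) (c : Matrix κ κ S) :
    tens (A + B) c = tens A c + tens B c := by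
  ext1 p q; exact add_tw _ _ _

theorem tens_add (A : Matrix ι ι (MonoidAlgebra (ZMod 2) X)) (c d : Matrix κ κ S) :
    tens A (c + d) = tens A c + tens A d := by
  ext1 p q; exact tw_add _ _ _

theorem zero_tens (c : Matrix κ κ S) : tens (0 : Matrix ι ι (MonoidAlgebra (ZMod 2) X)) c = 0 := by
  ext1 p q; exact zero_tw (c p.2 q.2)

theorem tens_zero (A : Matrix ι ι (MonoidAlgebra (ZMod 2) X)) : tens A (0 : Matrix κ κ S) = 0 := by
  ext1 p q; exact tw_zero (A p.1 q.1)

theorem tens_one [DecidableEq ι] [DecidableEq κ] [MulOneClass X] :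
    tens (1 : Matrix ι ι (MonoidAlgebra (ZMod 2) X)) (1 : Matrix κ κ S) = 1 := by
  ext1 p q
  rw [tens_apply, Matrix.one_apply, Matrix.one_apply, Matrix.one_apply]
  by_cases h1 : p.1 = q.1
  · by_cases h2 : p.2 = q.2
    · rw [if_pos h1, if_pos h2, if_pos (Prod.ext h1 h2), tw_one]
    · rw [if_neg h2, if_neg (fun h => h2 (congrArg Prod.snd h)), tw_zero]
  · rw [if_neg h1, if_neg (fun h => h1 (congrArg Prod.fst h)), zero_tw]

theorem tens_mul [Fintype ι] [Fintype κ] [Monoid X] (A B : Matrix ι ι (MonoidAlgebra (ZMod 2) X)) (c d : Matrix κ κ S) :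
    tens A c * tens B d = tens (A * B) (c * d) := by
  ext1 p q
  rw [Matrix.mul_apply, tens_apply, Matrix.mul_apply, Matrix.mul_apply, sum_tw, Fintype.sum_prod_type]
  refine Finset.sum_congr rfl fun j _ => ?_
  rw [tw_sum]
  refine Finset.sum_congr rfl fun b _ => ?_
  rw [tens_apply, tens_apply, tw_mul]

end tens

section trace

variable {S V κ : Type*} [Ring S] [AddCommGroup V] [Fintype κ] [DecidableEq κ] (τ : S →+ V)
  (hV : ∀ v : V, v + v = 0) (τ_mul : ∀ x y, τ (x * y) = τ (y * x)) (τ_sq : ∀ x, τ (x * x) = τ x)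

omit [DecidableEq κ] in
theorem tr_eq (c d : Matrix κ κ S) : τ (Matrix.trace (c * d)) = ∑ a, ∑ b, τ (c a b * d b a) := by
  rw [Matrix.trace, map_sum]
  refine Finset.sum_congr rfl fun a _ => ?_
  rw [Matrix.diag_apply, Matrix.mul_apply, map_sum]

include hV τ_mul τ_sq in
/-- the trace of a square -/
theorem tr_sq (c : Matrix κ κ S) : τ (Matrix.trace (c * c)) = τ (Matrix.trace c) := by
  rw [tr_eq, Matrix.trace, map_sum]
  have h1 : ∀ a b, (if a = b then (0 : V) else τ (c a b * c b a)) + (if b = a then (0 : V) else τ (c b a * c a b)) = 0 := by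
    intro a b
    by_cases h : a = b
    · rw [if_pos h, if_pos h.symm, add_zero]
    · rw [if_neg h, if_neg (Ne.symm h), τ_mul (c b a), hV]
  have h2 : ∑ a, ∑ b, (if a = b then (0 : V) else τ (c a b * c b a)) = 0 := by
    rw [← Finset.sum_product']
    refine Finset.sum_involution (fun p _ => (p.2, p.1)) ?_ ?_ ?_ ?_
    · intro p _; exact h1 _ _
    · intro p _ hp heq
      apply hp
      have : p.2 = p.1 := congrArg Prod.fst heq
      rw [if_pos this.symm]
    · intro p _; simp
    · intro p _; rfl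
  have h3 : ∀ a b, τ (c a b * c b a) = (if a = b then (0 : V) else τ (c a b * c b a)) + (if a = b then τ (c a b * c b a) else 0) := by
    intro a b
    by_cases h : a = b
    · rw [if_pos h, if_pos h, zero_add]
    · rw [if_neg h, if_neg h, add_zero]
  rw [Finset.sum_congr rfl fun a _ => Finset.sum_congr rfl fun b _ => h3 a b]
  simp only [Finset.sum_add_distrib]
  rw [h2, zero_add]
  refine Finset.sum_congr rfl fun a _ => ?_
  rw [Finset.sum_ite_eq Finset.univ a]
  simp [τ_sq]

end trace

end Pool.Agent.Lib.MP8a3537.K2V
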