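import Pool.Agent.Lib.MP_8a3537_gt.K2V.Tens
import Pool.Agent.Lib.MP_8a3537_gt.K2V.E
import Pool.Agent.Lib.MP_8a3537_gt.K2.Value

/-!
# The value of the degree two invariant on `Φ_x ⊗ ψ` (MP_8a3537_gt, folder K2V)

`S` is a ring with involution and `2 S = 0`, `τ : S → V` a trace with `τ(x^*) = τ(x) = τ(x²)`, and `ψ` any matrix over `S`
with `ψ + ψ^*` invertible.
-/

namespace Pool.Agent.Lib.MP8a3537.K2V

open Matrix

open Pool.Agent.Lib.MP8a3537.K2 (SymC bd Phi word cell q_F tri tri_sum Phi_eq w_swap1 w_swap2)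

theorem hZ : ∀ x : ZMod 2, x + x = 0 := CharTwo.add_self_eq_zero

section

variable {S V G : Type} [Ring S] [StarRing S] [Module (ZMod 2) S] [AddCommGroup V] [Module (ZMod 2) V] [Group G]

/-- what we need to know about the model -/
structure Model (c : SymC (ZMod 2) G) (τ : S →+ V) (P : Pre (MonoidAlgebra S G) (MonoidAlgebra S (G × G)) V) : Prop where
  i1_single : ∀ g a, P.i1 (MonoidAlgebra.single g a) = MonoidAlgebra.single (g, 1) a
  i2_single : ∀ g a, P.i2 (MonoidAlgebra.single g a) = MonoidAlgebra.single (1, g) a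
  t_single : ∀ g a, P.t (MonoidAlgebra.single g a) = MonoidAlgebra.single g⁻¹ (star a)
  I_single : ∀ u v a b, P.I (MonoidAlgebra.single u a) (MonoidAlgebra.single v b) = K2.Base.W c u v • τ (a * b)
  J_single : ∀ u v a b, P.J (MonoidAlgebra.single u a) (MonoidAlgebra.single v b) = K2.Base.Wh c u v • τ (a * b)

variable {c : SymC (ZMod 2) G} {τ : S →+ V} {P : Pre (MonoidAlgebra S G) (MonoidAlgebra S (G × G)) V}
  (M : Model c τ P) (hG : ∀ g : G, g * g = 1 → g = 1)

theorem star_smul' (a : ZMod 2) (s : S) : star (a • s) = a • star s := by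
  rcases z01 a with rfl | rfl <;> simp

include M

theorem i1_tw (x : MonoidAlgebra (ZMod 2) G) (s : S) : P.i1 (tw x s) = tw (K2.Base.i1 (ZMod 2) G x) s := by
  induction x using MonoidAlgebra.induction_linear with
  | zero => rw [map_zero, zero_tw, zero_tw, map_zero]
  | add x y hx hy => rw [map_add, add_tw, add_tw, map_add, hx, hy]
  | single u a => rw [K2.Base.i1_single, tw_single, tw_single, M.i1_single]

theorem i2_tw (x : MonoidAlgebra (ZMod 2) G) (s : S) : P.i2 (tw x s) = tw (K2.Base.i2 (ZMod 2) G x) s := by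
  induction x using MonoidAlgebra.induction_linear with
  | zero => rw [map_zero, zero_tw, zero_tw, map_zero]
  | add x y hx hy => rw [map_add, add_tw, add_tw, map_add, hx, hy]
  | single u a => rw [K2.Base.i2_single, tw_single, tw_single, M.i2_single]

theorem t_tw (x : MonoidAlgebra (ZMod 2) G) (s : S) : P.t (tw x s) = tw (K2.Base.t (ZMod 2) G x) (star s) := by
  induction x using MonoidAlgebra.induction_linear with
  | zero => rw [map_zero, zero_tw, zero_tw, map_zero]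
  | add x y hx hy => rw [map_add, add_tw, add_tw, map_add, hx, hy]
  | single u a => rw [K2.Base.t_single, tw_single, tw_single, M.t_single, star_smul']

theorem d_tw (x : MonoidAlgebra (ZMod 2) G) (s : S) : P.d (tw x s) = tw ((K2.Base.base c hZ hG).d x) s := by
  change P.i2 (tw x s) + P.i1 (tw x s) = tw (K2.Base.i2 (ZMod 2) G x + K2.Base.i1 (ZMod 2) G x) s
  rw [i1_tw M, i2_tw M, add_tw]

theorem I_tw (α β : MonoidAlgebra (ZMod 2) (G × G)) (s s' : S) :
    P.I (tw α s) (tw β s') = K2.Base.I c α β • τ (s * s') := by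
  induction α using MonoidAlgebra.induction_linear with
  | zero => rw [zero_tw, P.I_zero, K2.Base.I_zero, zero_smul]
  | add x y hx hy => rw [add_tw, P.I_add, hx, hy, K2.Base.I_add, add_smul]
  | single u a =>
    induction β using MonoidAlgebra.induction_linear with
    | zero => rw [zero_tw, P.zero_I, K2.Base.zero_I, zero_smul]
    | add x y hx hy => rw [add_tw, P.add_I, hx, hy, K2.Base.add_I, add_smul]
    | single v b =>
      rw [tw_single, tw_single, M.I_single, K2.Base.I_single]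
      rcases z01 a with rfl | rfl <;> rcases z01 b with rfl | rfl <;> simp

theorem J_tw (α β : MonoidAlgebra (ZMod 2) (G × G)) (s s' : S) :
    P.J (tw α s) (tw β s') = K2.Base.J c α β • τ (s * s') := by
  induction α using MonoidAlgebra.induction_linear with
  | zero => rw [zero_tw, P.J_zero, K2.Base.J_zero, zero_smul]
  | add x y hx hy => rw [add_tw, P.J_add, hx, hy, K2.Base.J_add, add_smul]
  | single u a =>
    induction β using MonoidAlgebra.induction_linear with
    | zero => rw [zero_tw, P.zero_J, K2.Base.zero_J, zero_smul]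
    | add x y hx hy => rw [add_tw, P.add_J, hx, hy, K2.Base.add_J, add_smul]
    | single v b =>
      rw [tw_single, tw_single, M.J_single, K2.Base.J_single]
      rcases z01 a with rfl | rfl <;> rcases z01 b with rfl | rfl <;> simp

variable {ι κ : Type} [Fintype ι] [DecidableEq ι] [Fintype κ] [DecidableEq κ]

theorem i1_tens (A : Matrix ι ι (MonoidAlgebra (ZMod 2) G)) (e : Matrix κ κ S) :
    (P.mat (ι × κ)).i1 (tens A e) = tens (((K2.Base.base c hZ hG).mat ι).i1 A) e := by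
  ext1 p q
  exact i1_tw M _ _

theorem d_tens (A : Matrix ι ι (MonoidAlgebra (ZMod 2) G)) (e : Matrix κ κ S) :
    (P.mat (ι × κ)).d (tens A e) = tens (((K2.Base.base c hZ hG).mat ι).d A) e := by
  ext1 p q
  exact d_tw M hG _ _

theorem t_tens (A : Matrix ι ι (MonoidAlgebra (ZMod 2) G)) (e : Matrix κ κ S) :
    (P.mat (ι × κ)).t (tens A e) = tens (((K2.Base.base c hZ hG).mat ι).t A) eᴴ := by
  ext1 p q
  exact t_tw M _ _

theorem I_tens (A B : Matrix ι ι (MonoidAlgebra (ZMod 2) (G × G))) (e f : Matrix κ κ S) :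
    (P.mat (ι × κ)).I (tens A e) (tens B f) = ((K2.Base.base c hZ hG).mat ι).I A B • τ (Matrix.trace (e * f)) := by
  rw [tr_eq]
  change ∑ p : ι × κ, ∑ q : ι × κ, P.I (tw (A p.1 q.1) (e p.2 q.2)) (tw (B q.1 p.1) (f q.2 p.2)) =
    (∑ i, ∑ j, K2.Base.I c (A i j) (B j i)) • ∑ a, ∑ b, τ (e a b * f b a)
  simp only [I_tw M, Fintype.sum_prod_type]
  rw [Finset.sum_smul]
  refine Finset.sum_congr rfl fun i _ => ?_
  rw [Finset.sum_comm, Finset.sum_smul]
  refine Finset.sum_congr rfl fun j _ => ?_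
  rw [Finset.smul_sum]
  refine Finset.sum_congr rfl fun a _ => ?_
  rw [Finset.smul_sum]

theorem q_tens (A : Matrix ι ι (MonoidAlgebra (ZMod 2) (G × G))) (e : Matrix κ κ S) :
    (P.mat (ι × κ)).q (tens A e) = ((K2.Base.base c hZ hG).mat ι).q A • τ (Matrix.trace (e * e)) := by
  rw [tr_eq]
  change ∑ p : ι × κ, ∑ q : ι × κ, P.J (tw (A p.1 q.1) (e p.2 q.2)) (tw (A q.1 p.1) (e q.2 p.2)) =
    (∑ i, ∑ j, K2.Base.J c (A i j) (A j i)) • ∑ a, ∑ b, τ (e a b * e b a)
  simp only [J_tw M, Fintype.sum_prod_type]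
  rw [Finset.sum_smul]
  refine Finset.sum_congr rfl fun i _ => ?_
  rw [Finset.sum_comm, Finset.sum_smul]
  refine Finset.sum_congr rfl fun j _ => ?_
  rw [Finset.smul_sum]
  refine Finset.sum_congr rfl fun a _ => ?_
  rw [Finset.smul_sum]

/-- `Φ ⊗ ψ` is nonsingular -/
theorem unit_tens {Φ Ψ N : Matrix ι ι (MonoidAlgebra (ZMod 2) G)} (h1 : Φ * Ψ = 1) (h2 : Ψ * Φ = 1)
    (hN : ((K2.Base.base c hZ hG).mat ι).t Φ = Φ * (1 + N)) (hNN : N * N = 0)
    {ψ l : Matrix κ κ S} (hl1 : (ψ + ψᴴ) * l = 1) (hl2 : l * (ψ + ψᴴ) = 1) :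
    IsUnit (tens Φ ψ + (P.mat (ι × κ)).t (tens Φ ψ)) := by
  set M0 := (K2.Base.base c hZ hG).mat ι with hM0
  have s2 : ∀ x : Matrix κ κ S, x + x = 0 := by
    intro x
    have : (2 : ℕ) • x = 0 := by
      ext1 i j
      rw [Matrix.smul_apply, two_nsmul, Matrix.zero_apply]
      have h := add_smul (1 : ZMod 2) 1 (x i j)
      rw [one_smul] at h
      rw [← h]
      exact zero_smul _ _
    rwa [two_nsmul] at this
  obtain ⟨E, hE⟩ : ∃ E, E = l * ψ := ⟨_, rfl⟩
  have p2 : ∀ x : Matrix (ι × κ) (ι × κ) (MonoidAlgebra S G), x + x = 0 := (P.mat (ι × κ)).b2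
  have hUU : (1 + tens N (1 + E)) * (1 + tens N (1 + E)) = 1 := by
    have : (1 + tens N (1 + E)) * (1 + tens N (1 + E)) =
        1 + (tens N (1 + E) + tens N (1 + E)) + tens N (1 + E) * tens N (1 + E) := by
      noncomm_ring
    rw [this, p2, tens_mul, hNN, zero_tens, add_zero, add_zero]
  have hs : tens Φ ψ + (P.mat (ι × κ)).t (tens Φ ψ) = tens Φ (ψ + ψᴴ) * (1 + tens N (1 + E)) := by
    rw [t_tens M hG, ← hM0, hN, mul_add, mul_one, add_tens, mul_add, mul_one, tens_mul, ← add_assoc, ← tens_add]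
    congr 2
    rw [mul_add, mul_one, hE, ← mul_assoc, hl1, one_mul, add_comm ψ, add_assoc, s2, add_zero]
  rw [hs]
  refine IsUnit.mul ⟨⟨tens Φ (ψ + ψᴴ), tens Ψ l, ?_, ?_⟩, rfl⟩ ⟨⟨_, _, hUU, hUU⟩, rfl⟩
  · rw [tens_mul, h1, hl1, tens_one]
  · rw [tens_mul, h2, hl2, tens_one]

/-- the value of `e` on `Φ ⊗ ψ` -/
theorem e_tens (τ_mul : ∀ x y, τ (x * y) = τ (y * x)) (τ_sq : ∀ x, τ (x * x) = τ x)
    {Φ Ψ N : Matrix ι ι (MonoidAlgebra (ZMod 2) G)} (h1 : Φ * Ψ = 1) (h2 : Ψ * Φ = 1)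
    (hN : ((K2.Base.base c hZ hG).mat ι).t Φ = Φ * (1 + N)) (hNN : N * N = 0)
    {ψ l : Matrix κ κ S} (hl1 : (ψ + ψᴴ) * l = 1) (hl2 : l * (ψ + ψᴴ) = 1) :
    (P.mat (ι × κ)).e (tens Φ ψ) =
      ((K2.Base.base c hZ hG).mat ι).q (((K2.Base.base c hZ hG).mat ι).i1 Ψ * ((K2.Base.base c hZ hG).mat ι).d Φ) • τ (Matrix.trace (l * ψ)) +
      ((K2.Base.base c hZ hG).mat ι).I (((K2.Base.base c hZ hG).mat ι).i1 Ψ * ((K2.Base.base c hZ hG).mat ι).d Φ)
        (((K2.Base.base c hZ hG).mat ι).d N) • τ (Matrix.trace (l * ψ * (l * ψ) + l * ψ * (l * ψ) * (l * ψ))) := by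
  set M0 := (K2.Base.base c hZ hG).mat ι with hM0
  have s2 : ∀ x : Matrix κ κ S, x + x = 0 := by
    intro x
    have : (2 : ℕ) • x = 0 := by
      ext1 i j
      rw [Matrix.smul_apply, two_nsmul, Matrix.zero_apply]
      have h := add_smul (1 : ZMod 2) 1 (x i j)
      rw [one_smul] at h
      rw [← h]
      exact zero_smul _ _
    rwa [two_nsmul] at this
  obtain ⟨E, hE⟩ : ∃ E, E = l * ψ := ⟨_, rfl⟩
  have hE1 : l * ψᴴ = 1 + E := by
    have : l * ψ + l * ψᴴ = 1 := by rw [← mul_add, hl2]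
    rw [hE, ← this, add_comm (l * ψ), add_assoc, s2, add_zero]
  have n2 : ∀ x : Matrix ι ι (MonoidAlgebra (ZMod 2) G), x + x = 0 := M0.b2
  have p2 : ∀ x : Matrix (ι × κ) (ι × κ) (MonoidAlgebra S G), x + x = 0 := (P.mat (ι × κ)).b2
  -- the bilinear form and its inverse
  set A := tens Φ (ψ + ψᴴ) with hA
  set A' := tens Ψ l with hA'
  set U := 1 + tens N (1 + E) with hU
  have hAA' : A * A' = 1 := by rw [hA, hA', tens_mul, h1, hl1, tens_one]
  have hA'A : A' * A = 1 := by rw [hA, hA', tens_mul, h2, hl2, tens_one]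
  have hUU : U * U = 1 := by
    have : U * U = 1 + (tens N (1 + E) + tens N (1 + E)) + tens N (1 + E) * tens N (1 + E) := by
      rw [hU]; noncomm_ring
    rw [this, p2, tens_mul, hNN, zero_tens, add_zero, add_zero]
  have hs : tens Φ ψ + (P.mat (ι × κ)).t (tens Φ ψ) = A * U := by
    rw [t_tens M hG, ← hM0, hN, mul_add, mul_one, add_tens, hU, mul_add, mul_one, hA, tens_mul, ← add_assoc, ← tens_add]
    congr 2
    rw [mul_add, mul_one, hE, ← mul_assoc, hl1, one_mul, add_comm ψ, add_assoc, s2, add_zero]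
  have hμ1 : U * A' * (tens Φ ψ + (P.mat (ι × κ)).t (tens Φ ψ)) = 1 := by
    rw [hs, mul_assoc, ← mul_assoc A', hA'A, one_mul, hUU]
  have hμ2 : (tens Φ ψ + (P.mat (ι × κ)).t (tens Φ ψ)) * (U * A') = 1 := by
    rw [hs, mul_assoc, ← mul_assoc U, hUU, one_mul, hAA']
  rw [Pre.e_eq hμ1 hμ2]
  set F := M0.i1 Ψ * M0.d Φ with hF
  have h3 : (P.mat (ι × κ)).i1 (U * A') * (P.mat (ι × κ)).d (tens Φ ψ) = tens F E + tens (M0.i1 N * F) (E + E * E) := by
    rw [map_mul, hA', d_tens M hG, i1_tens M hG, ← hM0, mul_assoc, tens_mul, ← hF, ← hE, hU, map_add, map_one, i1_tens M hG,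
      ← hM0, add_mul, one_mul, tens_mul, add_mul 1 E E, one_mul]
  have t1 : τ (Matrix.trace ((E + E * E) * (E + E * E))) = 0 := by
    have e1 := tr_sq τ (fun v => by
      have h := add_smul (1 : ZMod 2) 1 v
      rw [one_smul] at h
      rw [← h]; exact zero_smul _ _) τ_mul τ_sq (E + E * E)
    have e2 := tr_sq τ (fun v => by
      have h := add_smul (1 : ZMod 2) 1 v
      rw [one_smul] at h
      rw [← h]; exact zero_smul _ _) τ_mul τ_sq E
    rw [e1, Matrix.trace_add, map_add, e2]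
    have h := add_smul (1 : ZMod 2) 1 (τ (Matrix.trace E))
    rw [one_smul] at h
    rw [← h]; exact zero_smul _ _
  have t2 : τ (Matrix.trace (E * E)) = τ (Matrix.trace E) := tr_sq τ (fun v => by
      have h := add_smul (1 : ZMod 2) 1 v
      rw [one_smul] at h
      rw [← h]; exact zero_smul _ _) τ_mul τ_sq E
  rw [h3, Pre.q_add', q_tens M hG, q_tens M hG, I_tens M hG, ← hM0, t1, smul_zero, add_zero, t2, hF, K2.Pre.I_NF h1 h2 hN, ← hE]
  congr 3
  rw [mul_add, mul_assoc]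

include hG in
/-- **the value of the invariant** on `Φ_x ⊗ ψ` -/
theorem value (τ_mul : ∀ x y, τ (x * y) = τ (y * x)) (τ_sq : ∀ x, τ (x * x) = τ x)
    (x : ℕ → G) (h : ℕ) (hx : bd x h = 1) {ψ l : Matrix κ κ S} (hl1 : (ψ + ψᴴ) * l = 1) (hl2 : l * (ψ + ψᴴ) = 1) :
    (P.mat (Fin h × κ)).e (tens (Phi (ZMod 2) x h) ψ) =
      (∑ i ∈ Finset.range h, (c.w (bd x i) (x i) + c.w (bd x i * x i) (x i))) •
        τ (Matrix.trace (l * ψ * (l * ψ) + l * ψ * (l * ψ) * (l * ψ))) := by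
  have C := cell hZ hG c x h hx
  rw [e_tens M hG τ_mul τ_sq C.phi_psi C.psi_phi C.t_phi C.NN hl1 hl2, q_F, zero_smul, zero_add, C.value]
  congr 1
  have hc : ∀ g h, c.w g h = K2.hom c 1 g (g * h) := by
    intro g h; unfold K2.hom; congr 1 <;> group
  have winv : ∀ g x y z, K2.hom c (g * x) (g * y) (g * z) = K2.hom c x y z := by
    intro g x y z; unfold K2.hom; congr 1 <;> group
  have w1 : ∀ x y z, K2.hom c y x z = K2.hom c x y z := by
    intro x y z
    unfold K2.hom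
    rw [← w_swap1 (x⁻¹ * y) (y⁻¹ * z)]
    congr 1 <;> group
  have w2 : ∀ x y z, K2.hom c x z y = K2.hom c x y z := by
    intro x y z
    unfold K2.hom
    rw [← w_swap2 (x⁻¹ * y) (y⁻¹ * z)]
    congr 1 <;> group
  have w0 : ∀ x y, K2.hom c x x y = 0 := by
    intro x y; unfold K2.hom; rw [inv_mul_cancel, c.one_w]
  have wc : ∀ x y z t, K2.hom c y z t + K2.hom c x z t + K2.hom c x y t + K2.hom c x y z = 0 := by
    intro x y z t
    unfold K2.hom
    have h1 := c.cocyc (x⁻¹ * y) (y⁻¹ * z) (z⁻¹ * t)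
    have e1 : x⁻¹ * y * (y⁻¹ * z) = x⁻¹ * z := by group
    have e2 : y⁻¹ * z * (z⁻¹ * t) = y⁻¹ * t := by group
    rw [e1, e2] at h1
    exact h1
  have h1 := tri_sum hZ hG c (K2.hom c) hc winv w1 w2 w0 wc x h hx
  have h2 : ∑ i ∈ Finset.range h, (K2.hom c 1 (bd x i) (bd x i * x i) + K2.hom c 1 (bd x i * x i) (bd x (i + 1))) =
      ∑ i ∈ Finset.range h, (c.w (bd x i) (x i) + c.w (bd x i * x i) (x i)) := by
    refine Finset.sum_congr rfl fun i _ => ?_
    rw [hc (bd x i) (x i), hc (bd x i * x i) (x i)]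
    have : bd x (i + 1) = bd x i * x i * x i := by rw [mul_assoc]; rfl
    rw [this]
  rw [← h2, ← h1]
  simp only [Phi_eq hZ]
  rfl

end

end Pool.Agent.Lib.MP8a3537.K2V
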