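import Pool.Agent.Lib.MP_8a3537_gt.K2V.Value
import Pool.Agent.Lib.MP_8a3537_gt.K2V.Phi
import Pool.Agent.Lib.MP_8a3537_gt.K2V.Base

/-!
# The value of the degree two invariant on `Φ_x ⊗ ψ`, final form (MP_8a3537_gt, folder K2V)
-/

namespace Pool.Agent.Lib.MP8a3537.K2V

open Matrix

open Pool.Agent.Lib.MP8a3537.K2 (SymC bd)

section

variable {S G κ : Type} [Ring S] [Module (ZMod 2) S] [Group G]

/-- `Φ_x ⊗ ψ` is the tensor product of the matrix `Φ_x` over `F_2[G]` with `ψ` -/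
theorem PhiT_eq (x : ℕ → G) (h : ℕ) (ψ : Matrix κ κ S) : PhiT x h ψ = tens (K2.Phi (ZMod 2) x h) ψ := by
  ext1 p q
  rw [tens_apply]
  have h1 : Phi S x h p.1 q.1 = tw (K2.Phi (ZMod 2) x h p.1 q.1) 1 := by
    unfold Phi K2.Phi
    rw [Matrix.of_apply, Matrix.of_apply]
    by_cases h1 : p.1 = q.1
    · rw [if_pos h1, if_pos h1, K2.grp, tw_single, one_smul]
    · rw [if_neg h1, if_neg h1]
      by_cases h2 : p.1 < q.1
      · rw [if_pos h2, if_pos h2]
        have e1 : ∀ g : G, tw (K2.grp (ZMod 2) g) (1 : S) = MonoidAlgebra.single g 1 := by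
          intro g; rw [K2.grp, tw_single, one_smul]
        have e2 : (1 : S) = 1 * 1 * 1 := by rw [mul_one, mul_one]
        conv_rhs => rw [e2]
        rw [← tw_mul, ← tw_mul, add_tw, add_tw, tw_one, e1, e1, e1]
      · rw [if_neg h2, if_neg h2, zero_tw]
  show Phi S x h p.1 q.1 * MonoidAlgebra.single 1 (ψ p.2 q.2) = _
  have h2 : MonoidAlgebra.single (1 : G) (ψ p.2 q.2) = tw (1 : MonoidAlgebra (ZMod 2) G) (ψ p.2 q.2) := by
    rw [MonoidAlgebra.one_def, tw_single, one_smul]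
  rw [h1, h2, tw_mul, mul_one, one_mul]

end

section

variable {S V G : Type} [Ring S] [StarRing S] [AddCommGroup V] [Module (ZMod 2) V] [Group G]
  (c : SymC (ZMod 2) G) (τ : S →+ V) (hS : ∀ x : S, x + x = 0) (hG : ∀ g : G, g * g = 1 → g = 1)
  (τm : ∀ x y : S, τ (x * y) = τ (y * x)) (τs : ∀ x : S, τ (star x) = τ x) (τq : ∀ x : S, τ (x * x) = τ x)

theorem model : Model c τ (Base.base c τ hS hG τm τs) where
  i1_single g a := Base.i1_single g a
  i2_single g a := Base.i2_single g a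
  t_single g a := Base.t_single g a
  I_single u v a b := Base.I_single u v a b
  J_single u v a b := Base.J_single u v a b

variable {κ : Type} [Fintype κ] [DecidableEq κ]

include τq in
/-- **the value of the invariant** on `Φ_x ⊗ ψ` -/
theorem e_PhiT (x : ℕ → G) (h : ℕ) (hx : bd x h = 1) {ψ : Matrix κ κ S} (hψ : IsUnit (ψ + ψᴴ)) :
    ((Base.base c τ hS hG τm τs).mat (Fin h × κ)).e (PhiT x h ψ) =
      (∑ i ∈ Finset.range h, (c.w (bd x i) (x i) + c.w (bd x i * x i) (x i))) •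
        τ (Matrix.trace (Ring.inverse (ψ + ψᴴ) * ψ * (Ring.inverse (ψ + ψᴴ) * ψ) +
          Ring.inverse (ψ + ψᴴ) * ψ * (Ring.inverse (ψ + ψᴴ) * ψ) * (Ring.inverse (ψ + ψᴴ) * ψ))) := by
  letI : Module (ZMod 2) S := AddCommGroup.zmodModule (n := 2) (by intro x; rw [two_nsmul]; exact hS x)
  rw [PhiT_eq]
  exact value (model c τ hS hG τm τs) hG τm τq x h hx (Ring.mul_inverse_cancel _ hψ) (Ring.inverse_mul_cancel _ hψ)

omit [AddCommGroup V] [Module (ZMod 2) V] in
include hS hG in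
/-- `Φ_x ⊗ ψ` is nonsingular -/
theorem isUnit_PhiT (x : ℕ → G) (h : ℕ) (hx : bd x h = 1) {ψ : Matrix κ κ S} (hψ : IsUnit (ψ + ψᴴ)) :
    IsUnit (PhiT x h ψ + GA.dual (PhiT x h ψ)) := by
  letI : Module (ZMod 2) S := AddCommGroup.zmodModule (n := 2) (by intro x; rw [two_nsmul]; exact hS x)
  -- the trivial cocycle and the zero functional
  let c0 : SymC (ZMod 2) G :=
    { w := fun _ _ => 0, one_w := fun _ => rfl, w_one := fun _ => rfl, w_inv := fun _ => rfl, cyc := fun _ _ => rfl,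
      inv := fun _ _ => rfl, cocyc := fun _ _ _ => by simp, idem := fun _ _ => by simp }
  have C := K2.cell hZ hG c0 x h hx
  obtain ⟨u, hu⟩ := unit_tens (model c0 (0 : S →+ ZMod 2) hS hG (fun _ _ => rfl) (fun _ => rfl)) hG C.phi_psi C.psi_phi
    C.t_phi C.NN (Ring.mul_inverse_cancel _ hψ) (Ring.inverse_mul_cancel _ hψ)
  refine ⟨u, ?_⟩
  rw [hu, PhiT_eq]
  rfl

end

end Pool.Agent.Lib.MP8a3537.K2V
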